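import Pool.Agent.Zk86.SU4.Block

/-! Embedding of the blocks, and the four involutions. -/

set_option autoImplicit false

namespace Pool.Agent.Zk86.SU4

open Matrix Pool.Agent.H16.SUn

variable {n : ℕ}

/-- block matrix with a two by two block and a diagonal part -/
def Bl {r : ℕ} (e : Fin 2 ⊕ Fin r ≃ Fin n) (u : Matrix (Fin 2) (Fin 2) ℂ) (d : Fin r → ℂ) :
    Matrix (Fin n) (Fin n) ℂ :=
  (fromBlocks u 0 0 (diagonal d)).submatrix e.symm e.symm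

theorem Bl_mul {r : ℕ} (e : Fin 2 ⊕ Fin r ≃ Fin n) (u u' : Matrix (Fin 2) (Fin 2) ℂ)
    (d d' : Fin r → ℂ) : Bl e u d * Bl e u' d' = Bl e (u * u') (fun i => d i * d' i) := by
  unfold Bl
  rw [Matrix.submatrix_mul_equiv, fromBlocks_multiply, diagonal_mul_diagonal]
  simp

theorem Bl_conj {r : ℕ} (e : Fin 2 ⊕ Fin r ≃ Fin n) (u : Matrix (Fin 2) (Fin 2) ℂ)
    (d : Fin r → ℂ) : (Bl e u d)ᴴ = Bl e uᴴ (fun i => star (d i)) := by
  unfold Bl
  rw [conjTranspose_submatrix, fromBlocks_conjTranspose, diagonal_conjTranspose]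
  simp
  rfl

theorem Bl_one {r : ℕ} (e : Fin 2 ⊕ Fin r ≃ Fin n) : Bl e 1 (fun _ => 1) = 1 := by
  unfold Bl
  have : (diagonal fun _ : Fin r => (1 : ℂ)) = 1 := diagonal_one
  rw [this, fromBlocks_one, Matrix.submatrix_one_equiv]

theorem Bl_diag {r : ℕ} (e : Fin 2 ⊕ Fin r ≃ Fin n) (x : Fin n → ℂ) :
    diagonal x = Bl e (diagonal ![x (e (Sum.inl 0)), x (e (Sum.inl 1))])
      (fun i => x (e (Sum.inr i))) := by
  unfold Bl
  rw [fromBlocks_diagonal, Matrix.submatrix_diagonal_equiv]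
  congr 1
  funext i
  obtain ⟨s, rfl⟩ := e.surjective i
  simp only [Function.comp, Equiv.symm_apply_apply]
  rcases s with s | s
  · fin_cases s
    · simp
    · simp
  · simp

theorem exists_equiv (hn : 2 ≤ n) {i j : Fin n} (hij : i ≠ j) :
    ∃ e : Fin 2 ⊕ Fin (n - 2) ≃ Fin n, e (Sum.inl 0) = i ∧ e (Sum.inl 1) = j := by
  let e0 : Fin 2 ⊕ Fin (n - 2) ≃ Fin n := finSumFinEquiv.trans (finCongr (by omega))
  set e1 := e0.trans (Equiv.swap (e0 (Sum.inl 0)) i) with he1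
  have h1 : e1 (Sum.inl 0) = i := by simp [he1]
  have h2 : e1 (Sum.inl 1) ≠ i := by
    rw [← h1]
    intro h
    have := e1.injective h
    simp at this
  refine ⟨e1.trans (Equiv.swap (e1 (Sum.inl 1)) j), ?_, ?_⟩
  · rw [Equiv.trans_apply, h1]
    exact Equiv.swap_apply_of_ne_of_ne (Ne.symm h2) hij
  · rw [Equiv.trans_apply, Equiv.swap_apply_left]

/-- the assembled factorisation -/
theorem assemble (hn : 2 ≤ n) {z x y : Fin n → ℂ} {i j : Fin n} (hij : i ≠ j)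
    {X Y W V : Matrix (Fin 2) (Fin 2) ℂ} (hW : Wᴴ * W = 1) (hV : Vᴴ * V = 1)
    (hXY : X * Y = diagonal ![z i, z j]) (hX : X = W * diagonal ![x i, x j] * Wᴴ)
    (hY : Y = V * diagonal ![y i, y j] * Vᴴ) (hxy : ∀ l, l ≠ i → l ≠ j → x l * y l = z l) :
    ∃ Q R : Matrix (Fin n) (Fin n) ℂ, Qᴴ * Q = 1 ∧ Q * Qᴴ = 1 ∧ Rᴴ * R = 1 ∧ R * Rᴴ = 1 ∧
      diagonal z = (Q * diagonal x * Qᴴ) * (R * diagonal y * Rᴴ) := by
  obtain ⟨e, e0, e1⟩ := exists_equiv hn hij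
  have hW2 : W * Wᴴ = 1 := mul_eq_one_comm.mp hW
  have hV2 : V * Vᴴ = 1 := mul_eq_one_comm.mp hV
  refine ⟨Bl e W (fun _ => 1), Bl e V (fun _ => 1), ?_, ?_, ?_, ?_, ?_⟩
  · rw [Bl_conj, Bl_mul, hW]; simpa using Bl_one e
  · rw [Bl_conj, Bl_mul, hW2]; simpa using Bl_one e
  · rw [Bl_conj, Bl_mul, hV]; simpa using Bl_one e
  · rw [Bl_conj, Bl_mul, hV2]; simpa using Bl_one e
  · rw [Bl_diag e z, Bl_diag e x, Bl_diag e y, e0, e1, Bl_conj, Bl_conj, Bl_mul, Bl_mul, Bl_mul,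
      Bl_mul, Bl_mul, ← hX, ← hY, hXY]
    congr 1
    funext l
    simp only [star_one, mul_one, one_mul]
    rw [hxy]
    · intro h
      rw [← e0] at h
      have := e.injective h
      simp at this
    · intro h
      rw [← e1] at h
      have := e.injective h
      simp at this

/-- being a product of four involutions of the special unitary group -/
def Four (A : Matrix (Fin n) (Fin n) ℂ) : Prop :=
  ∃ I1 I2 I3 I4, IsInv n I1 ∧ IsInv n I2 ∧ IsInv n I3 ∧ IsInv n I4 ∧ A = I1 * I2 * I3 * I4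

theorem Four.conj {P A : Matrix (Fin n) (Fin n) ℂ} (h1 : Pᴴ * P = 1) (h2 : P * Pᴴ = 1)
    (h : Four A) : Four (P * A * Pᴴ) := by
  obtain ⟨I1, I2, I3, I4, i1, i2, i3, i4, h⟩ := h
  refine ⟨_, _, _, _, isInv_conj h1 h2 i1, isInv_conj h1 h2 i2, isInv_conj h1 h2 i3,
    isInv_conj h1 h2 i4, ?_⟩
  rw [h]
  calc P * (I1 * I2 * I3 * I4) * Pᴴ = P * I1 * 1 * I2 * 1 * I3 * 1 * I4 * Pᴴ := by
        simp only [mul_assoc, one_mul]
    _ = P * I1 * (Pᴴ * P) * I2 * (Pᴴ * P) * I3 * (Pᴴ * P) * I4 * Pᴴ := by rw [h1]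
    _ = _ := by simp only [mul_assoc]

/-- four involutions from two pairings -/
theorem four_of_pairs {z x y : Fin n → ℂ} (hz : ∏ l, z l = 1)
    {Q R : Matrix (Fin n) (Fin n) ℂ} (q1 : Qᴴ * Q = 1) (q2 : Q * Qᴴ = 1) (r1 : Rᴴ * R = 1)
    (r2 : R * Rᴴ = 1) (h : diagonal z = (Q * diagonal x * Qᴴ) * (R * diagonal y * Rᴴ))
    (σ τ : Equiv.Perm (Fin n)) (s1 : ∀ l, σ (σ l) = l) (t1 : ∀ l, τ (τ l) = l)
    (hx : ∀ l, star (x l) * x l = 1) (hy : ∀ l, star (y l) * y l = 1)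
    (sx : ∀ l, x (σ l) = star (x l)) (ty : ∀ l, y (τ l) = star (y l))
    (sf : ∃ f, σ f = f) (tf : ∃ f, τ f = f) (yf : ∀ l, τ l = l → y l = 1) :
    Four (diagonal z) := by
  have py : ∏ l, y l = 1 := prod_one τ y t1 hy ty yf
  have px : ∏ l, x l = 1 := by
    have hd := congrArg Matrix.det h
    rw [det_mul, det_mul, det_mul, det_mul, det_mul, det_diagonal, det_diagonal, det_diagonal,
      hz, py] at hd
    have e1 : Q.det * Qᴴ.det = 1 := by rw [← det_mul, q2, det_one]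
    have e2 : R.det * Rᴴ.det = 1 := by rw [← det_mul, r2, det_one]
    have : (1 : ℂ) = (Q.det * Qᴴ.det) * (R.det * Rᴴ.det) * ∏ l, x l := by
      rw [hd]; ring
    rw [e1, e2] at this
    rw [one_mul, one_mul] at this
    exact this.symm
  obtain ⟨I1, I2, i1, i2, hx'⟩ := two_inv' σ x s1 hx sx px (Or.inr sf)
  obtain ⟨J1, J2, j1, j2, hy'⟩ := two_inv' τ y t1 hy ty py (Or.inr tf)
  refine ⟨_, _, _, _, isInv_conj q1 q2 i1, isInv_conj q1 q2 i2, isInv_conj r1 r2 j1,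
    isInv_conj r1 r2 j2, ?_⟩
  rw [h, hx', hy']
  calc Q * (I1 * I2) * Qᴴ * (R * (J1 * J2) * Rᴴ)
      = Q * I1 * 1 * I2 * Qᴴ * (R * J1 * 1 * J2 * Rᴴ) := by simp only [mul_assoc, one_mul]
    _ = Q * I1 * (Qᴴ * Q) * I2 * Qᴴ * (R * J1 * (Rᴴ * R) * J2 * Rᴴ) := by rw [q1, r1]
    _ = _ := by simp only [mul_assoc]

end Pool.Agent.Zk86.SU4
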