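import Mathlib

/-! The real conditions for the two by two blocks. -/

set_option autoImplicit false

namespace Pool.Agent.Zk86.SU4

/-- a number between two numbers is a convex combination -/
theorem convex_between {R0 R1 R : ℝ} (h : (R - R0) * (R - R1) ≤ 0) :
    ∃ c : ℝ, 0 ≤ c ∧ c ≤ 1 ∧ c * R1 + (1 - c) * R0 = R := by
  rcases eq_or_ne R0 R1 with e | e
  · subst e
    refine ⟨0, le_rfl, zero_le_one, ?_⟩
    have : (R - R0) ^ 2 ≤ 0 := by nlinarith
    have h2 : R - R0 = 0 := by
      have := le_antisymm this (sq_nonneg _)
      exact pow_eq_zero_iff (two_ne_zero) |>.1 this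
    linarith
  · have hne : R1 - R0 ≠ 0 := sub_ne_zero.2 (Ne.symm e)
    refine ⟨(R - R0) / (R1 - R0), ?_, ?_, ?_⟩
    · rcases lt_or_gt_of_ne e with h1 | h1
      · apply div_nonneg _ (by linarith)
        by_contra hc
        push Not at hc
        nlinarith
      · rw [div_nonneg_iff]
        right
        refine ⟨?_, by linarith⟩
        by_contra hc
        push Not at hc
        nlinarith
    · rcases lt_or_gt_of_ne e with h1 | h1
      · rw [div_le_one (by linarith)]
        by_contra hc
        push Not at hc
        nlinarith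
      · rw [div_le_one_of_neg (by linarith)]
        by_contra hc
        push Not at hc
        nlinarith
    · field_simp
      ring

theorem exists_sqrt {D : ℂ} (hD : star D * D = 1) : ∃ d : ℂ, d * d = D ∧ star d * d = 1 := by
  obtain ⟨d, hd⟩ := IsAlgClosed.exists_pow_nat_eq D (n := 2) (by norm_num)
  have h1 : d * d = D := by rw [← hd, sq]
  refine ⟨d, h1, ?_⟩
  have h2 : (star d * d) * (star d * d) = 1 := by
    have : star D = star d * star d := by rw [← h1, star_mul']
    calc (star d * d) * (star d * d) = (star d * star d) * (d * d) := by ring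
      _ = 1 := by rw [← this, h1, hD]
  have h3 : star d * d = ((Complex.normSq d : ℝ) : ℂ) := by
    rw [mul_comm]; exact Complex.mul_conj d
  rw [h3] at h2 ⊢
  have h4 : Complex.normSq d * Complex.normSq d = 1 := by exact_mod_cast h2
  have h5 := Complex.normSq_nonneg d
  have h6 : Complex.normSq d = 1 := by nlinarith
  rw [h6]; simp

theorem unit_re_im {a : ℂ} (ha : star a * a = 1) : a.re * a.re + a.im * a.im = 1 := by
  have h3 : star a * a = ((Complex.normSq a : ℝ) : ℂ) := by
    rw [mul_comm]; exact Complex.mul_conj a
  rw [h3] at ha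
  have : Complex.normSq a = 1 := by exact_mod_cast ha
  rw [Complex.normSq_apply] at this
  exact this

/-- the block condition, case of an even number of preceding entries -/
theorem even_case {a b p : ℂ} (ha : star a * a = 1) (hb : star b * b = 1) (hp : star p * p = 1)
    (h : (a.im * b.im) * ((a * p).im * (b * p).im) ≤ 0) :
    ∃ (ε : ℂ) (c : ℝ), (ε = 1 ∨ ε = -1) ∧ 0 ≤ c ∧ c ≤ 1 ∧
      (c : ℂ) * (b + p * a) + (1 - c) * (a + p * b) = ε * (1 + a * b * p) := by
  have hD : star (a * b * p) * (a * b * p) = 1 := by
    rw [star_mul', star_mul']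
    calc star a * star b * star p * (a * b * p) = (star a * a) * (star b * b) * (star p * p) := by
          ring
      _ = 1 := by rw [ha, hb, hp]; norm_num
  obtain ⟨d, hd, hd1⟩ := exists_sqrt hD
  have ea := unit_re_im ha
  have eb := unit_re_im hb
  have ed := unit_re_im hd1
  have hpa : a * p = d * d * star b := by
    rw [hd]
    linear_combination (-(a * p)) * hb
  have hpb : b * p = d * d * star a := by
    rw [hd]
    linear_combination (-(b * p)) * ha
  set R0 : ℝ := 2 * (a.re * d.re + a.im * d.im) with hR0
  set R1 : ℝ := 2 * (b.re * d.re + b.im * d.im) with hR1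
  set R : ℝ := 2 * d.re with hR
  have k0 : a + p * b = (R0 : ℂ) * d := by
    have : p * b = d * d * star a := by rw [mul_comm]; exact hpb
    rw [this, hR0]
    apply Complex.ext
    · simp only [Complex.add_re, Complex.mul_re, Complex.mul_im, Complex.star_def,
        Complex.conj_re, Complex.conj_im, Complex.ofReal_re, Complex.ofReal_im]
      linear_combination (-a.re) * ed
    · simp only [Complex.add_im, Complex.mul_re, Complex.mul_im, Complex.star_def,
        Complex.conj_re, Complex.conj_im, Complex.ofReal_re, Complex.ofReal_im]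
      linear_combination (-a.im) * ed
  have k1 : b + p * a = (R1 : ℂ) * d := by
    have : p * a = d * d * star b := by rw [mul_comm]; exact hpa
    rw [this, hR1]
    apply Complex.ext
    · simp only [Complex.add_re, Complex.mul_re, Complex.mul_im, Complex.star_def,
        Complex.conj_re, Complex.conj_im, Complex.ofReal_re, Complex.ofReal_im]
      linear_combination (-b.re) * ed
    · simp only [Complex.add_im, Complex.mul_re, Complex.mul_im, Complex.star_def,
        Complex.conj_re, Complex.conj_im, Complex.ofReal_re, Complex.ofReal_im]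
      linear_combination (-b.im) * ed
  have k2 : 1 + a * b * p = (R : ℂ) * d := by
    rw [← hd, hR]
    apply Complex.ext
    · simp only [Complex.add_re, Complex.mul_re, Complex.one_re,
        Complex.ofReal_re, Complex.ofReal_im]
      linear_combination (-1 : ℝ) * ed
    · simp only [Complex.add_im, Complex.mul_im, Complex.one_im,
        Complex.ofReal_re, Complex.ofReal_im]
      linear_combination (0 : ℝ) * ed
  have m0 : R ^ 2 - R0 ^ 2 = -4 * (a.im * (b * p).im) := by
    rw [hpb, hR, hR0]
    simp only [Complex.mul_re, Complex.mul_im, Complex.star_def,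
        Complex.conj_re, Complex.conj_im]
    linear_combination (-4 * d.re ^ 2) * ea
  have m1 : R ^ 2 - R1 ^ 2 = -4 * (b.im * (a * p).im) := by
    rw [hpa, hR, hR1]
    simp only [Complex.mul_re, Complex.mul_im, Complex.star_def,
        Complex.conj_re, Complex.conj_im]
    linear_combination (-4 * d.re ^ 2) * eb
  have m2 : (R ^ 2 - R0 ^ 2) * (R ^ 2 - R1 ^ 2) ≤ 0 := by
    rw [m0, m1]
    nlinarith [h]
  have m3 : ((R - R0) * (R - R1)) * ((-R - R0) * (-R - R1)) ≤ 0 := by
    have : ((R - R0) * (R - R1)) * ((-R - R0) * (-R - R1))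
        = (R ^ 2 - R0 ^ 2) * (R ^ 2 - R1 ^ 2) := by ring
    rw [this]; exact m2
  have m4 : (R - R0) * (R - R1) ≤ 0 ∨ (-R - R0) * (-R - R1) ≤ 0 := by
    by_contra hc
    push Not at hc
    have := mul_pos hc.1 hc.2
    linarith
  rcases m4 with m | m
  · obtain ⟨c, c0, c1, hc⟩ := convex_between m
    refine ⟨1, c, Or.inl rfl, c0, c1, ?_⟩
    rw [k0, k1, k2, one_mul, ← hc]
    push_cast
    ring
  · obtain ⟨c, c0, c1, hc⟩ := convex_between m
    refine ⟨-1, c, Or.inr rfl, c0, c1, ?_⟩
    rw [k0, k1, k2]
    have : (R : ℂ) = -(c * R1 + (1 - c) * R0) := by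
      have : R = -(c * R1 + (1 - c) * R0) := by rw [hc]; ring
      exact_mod_cast this
    rw [this]
    ring

/-- the block condition, case of an odd number of preceding entries -/
theorem odd_case {a b p : ℂ} (ha : star a * a = 1) (hb : star b * b = 1) (hp : star p * p = 1)
    (h : a.im * b.im ≤ 0) :
    ∃ (η : ℂ) (c : ℝ), (η = 1 ∨ η = -1) ∧ 0 ≤ c ∧ c ≤ 1 ∧
      (c : ℂ) * (p * a + η * b) + (1 - c) * (η * a + p * b) = 1 + η * (a * b * p) := by
  have hD : star (a * b * p) * (a * b * p) = 1 := by
    rw [star_mul', star_mul']
    calc star a * star b * star p * (a * b * p) = (star a * a) * (star b * b) * (star p * p) := by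
          ring
      _ = 1 := by rw [ha, hb, hp]; norm_num
  obtain ⟨d, hd, hd1⟩ := exists_sqrt hD
  have ea := unit_re_im ha
  have eb := unit_re_im hb
  have ed := unit_re_im hd1
  have hpa : p * a = d * d * star b := by
    rw [hd]
    linear_combination (-(a * p)) * hb
  have hpb : p * b = d * d * star a := by
    rw [hd]
    linear_combination (-(b * p)) * ha
  set R0 : ℝ := (a.re * d.re + a.im * d.im) with hR0
  set R1 : ℝ := (b.re * d.re + b.im * d.im) with hR1
  set S0 : ℝ := (a.im * d.re - a.re * d.im) with hS0
  set S1 : ℝ := (b.im * d.re - b.re * d.im) with hS1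
  have k0 : a + p * b = ((2 * R0 : ℝ) : ℂ) * d := by
    rw [hpb, hR0]
    apply Complex.ext
    · simp only [Complex.add_re, Complex.mul_re, Complex.mul_im, Complex.star_def,
        Complex.conj_re, Complex.conj_im, Complex.ofReal_re, Complex.ofReal_im]
      linear_combination (-a.re) * ed
    · simp only [Complex.add_im, Complex.mul_re, Complex.mul_im, Complex.star_def,
        Complex.conj_re, Complex.conj_im, Complex.ofReal_re, Complex.ofReal_im]
      linear_combination (-a.im) * ed
  have k1 : b + p * a = ((2 * R1 : ℝ) : ℂ) * d := by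
    rw [hpa, hR1]
    apply Complex.ext
    · simp only [Complex.add_re, Complex.mul_re, Complex.mul_im, Complex.star_def,
        Complex.conj_re, Complex.conj_im, Complex.ofReal_re, Complex.ofReal_im]
      linear_combination (-b.re) * ed
    · simp only [Complex.add_im, Complex.mul_re, Complex.mul_im, Complex.star_def,
        Complex.conj_re, Complex.conj_im, Complex.ofReal_re, Complex.ofReal_im]
      linear_combination (-b.im) * ed
  have k2 : 1 + a * b * p = ((2 * d.re : ℝ) : ℂ) * d := by
    rw [← hd]
    apply Complex.ext
    · simp only [Complex.add_re, Complex.mul_re, Complex.one_re,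
        Complex.ofReal_re, Complex.ofReal_im]
      linear_combination (-1 : ℝ) * ed
    · simp only [Complex.add_im, Complex.mul_im, Complex.one_im,
        Complex.ofReal_re, Complex.ofReal_im]
      linear_combination (0 : ℝ) * ed
  have l0 : a - p * b = Complex.I * ((2 * S0 : ℝ) : ℂ) * d := by
    rw [hpb, hS0]
    apply Complex.ext
    · simp only [Complex.sub_re, Complex.mul_re, Complex.mul_im, Complex.star_def,
        Complex.conj_re, Complex.conj_im, Complex.ofReal_re, Complex.ofReal_im, Complex.I_re,
        Complex.I_im]
      linear_combination (-a.re) * ed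
    · simp only [Complex.sub_im, Complex.mul_re, Complex.mul_im, Complex.star_def,
        Complex.conj_re, Complex.conj_im, Complex.ofReal_re, Complex.ofReal_im, Complex.I_re,
        Complex.I_im]
      linear_combination (-a.im) * ed
  have l1 : b - p * a = Complex.I * ((2 * S1 : ℝ) : ℂ) * d := by
    rw [hpa, hS1]
    apply Complex.ext
    · simp only [Complex.sub_re, Complex.mul_re, Complex.mul_im, Complex.star_def,
        Complex.conj_re, Complex.conj_im, Complex.ofReal_re, Complex.ofReal_im, Complex.I_re,
        Complex.I_im]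
      linear_combination (-b.re) * ed
    · simp only [Complex.sub_im, Complex.mul_re, Complex.mul_im, Complex.star_def,
        Complex.conj_re, Complex.conj_im, Complex.ofReal_re, Complex.ofReal_im, Complex.I_re,
        Complex.I_im]
      linear_combination (-b.im) * ed
  have l2 : 1 - a * b * p = -(Complex.I * ((2 * d.im : ℝ) : ℂ) * d) := by
    rw [← hd]
    apply Complex.ext
    · simp only [Complex.sub_re, Complex.mul_re, Complex.one_re, Complex.neg_re,
        Complex.ofReal_re, Complex.ofReal_im, Complex.I_re, Complex.I_im, Complex.mul_im]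
      linear_combination (-1 : ℝ) * ed
    · simp only [Complex.sub_im, Complex.mul_im, Complex.one_im, Complex.neg_im, Complex.mul_re,
        Complex.ofReal_re, Complex.ofReal_im, Complex.I_re, Complex.I_im]
      linear_combination (0 : ℝ) * ed
  have m0 : (S0 - d.im) * (d.re - R0) = a.im * (1 - (p * b).re) := by
    rw [hpb, hR0, hS0]
    simp only [Complex.mul_re, Complex.mul_im, Complex.star_def,
        Complex.conj_re, Complex.conj_im]
    linear_combination (d.re * d.im) * ea + (a.im) * ed
  have m1 : (S1 - d.im) * (d.re - R1) = b.im * (1 - (p * a).re) := by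
    rw [hpa, hR1, hS1]
    simp only [Complex.mul_re, Complex.mul_im, Complex.star_def,
        Complex.conj_re, Complex.conj_im]
    linear_combination (d.re * d.im) * eb + (b.im) * ed
  have n0 : 0 ≤ 1 - (p * b).re := by
    have : star (p * b) * (p * b) = 1 := by
      rw [star_mul']
      calc star p * star b * (p * b) = (star p * p) * (star b * b) := by ring
        _ = 1 := by rw [hb, hp]; norm_num
    have := unit_re_im this
    nlinarith [mul_self_nonneg (p * b).im]
  have n1 : 0 ≤ 1 - (p * a).re := by
    have : star (p * a) * (p * a) = 1 := by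
      rw [star_mul']
      calc star p * star a * (p * a) = (star p * p) * (star a * a) := by ring
        _ = 1 := by rw [ha, hp]; norm_num
    have := unit_re_im this
    nlinarith [mul_self_nonneg (p * a).im]
  have m3 : ((d.re - R0) * (d.re - R1)) * ((d.im - S0) * (d.im - S1)) ≤ 0 := by
    have : ((d.re - R0) * (d.re - R1)) * ((d.im - S0) * (d.im - S1))
        = ((S0 - d.im) * (d.re - R0)) * ((S1 - d.im) * (d.re - R1)) := by ring
    rw [this, m0, m1]
    have h5 : a.im * (1 - (p * b).re) * (b.im * (1 - (p * a).re))
        = (a.im * b.im) * ((1 - (p * b).re) * (1 - (p * a).re)) := by ring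
    rw [h5]
    exact mul_nonpos_of_nonpos_of_nonneg h (mul_nonneg n0 n1)
  have m4 : (d.re - R0) * (d.re - R1) ≤ 0 ∨ (d.im - S0) * (d.im - S1) ≤ 0 := by
    by_contra hc
    push Not at hc
    have := mul_pos hc.1 hc.2
    linarith
  rcases m4 with m | m
  · obtain ⟨c, c0, c1, hc⟩ := convex_between m
    refine ⟨1, c, Or.inl rfl, c0, c1, ?_⟩
    have e1 : p * a + 1 * b = b + p * a := by ring
    rw [e1, one_mul, one_mul, k0, k1, k2, ← hc]
    push_cast
    ring
  · obtain ⟨c, c0, c1, hc⟩ := convex_between m
    refine ⟨-1, c, Or.inr rfl, c0, c1, ?_⟩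
    have e1 : p * a + -1 * b = -(b - p * a) := by ring
    have e2 : -1 * a + p * b = -(a - p * b) := by ring
    have e3 : 1 + -1 * (a * b * p) = 1 - a * b * p := by ring
    rw [e1, e2, e3, l0, l1, l2, ← hc]
    push_cast
    ring

end Pool.Agent.Zk86.SU4
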