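import Pool.Agent.H16.SUn3
import Pool.Agent.Zk86.SU4.Cond

/-! Two by two blocks with prescribed eigenvalues, and their embedding. -/

set_option autoImplicit false

namespace Pool.Agent.Zk86.SU4

open Matrix Pool.Agent.H16.SUn

variable {n : ℕ}

/-- the eigenvalues of a diagonalisation can be reordered -/
theorem reorder {P : Matrix (Fin n) (Fin n) ℂ} {A : Matrix (Fin n) (Fin n) ℂ} {z : Fin n → ℂ}
    (h1 : Pᴴ * P = 1) (h2 : P * Pᴴ = 1) (h3 : A = P * diagonal z * Pᴴ)
    (π : Equiv.Perm (Fin n)) :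
    ∃ Q : Matrix (Fin n) (Fin n) ℂ, Qᴴ * Q = 1 ∧ Q * Qᴴ = 1 ∧
      A = Q * diagonal (z ∘ π) * Qᴴ := by
  refine ⟨P.submatrix id π, ?_, ?_, ?_⟩
  · rw [conjTranspose_submatrix]
    have : Pᴴ.submatrix π id * P.submatrix id π = (Pᴴ * P).submatrix π π := by
      ext i j
      simp [Matrix.mul_apply]
    rw [this, h1]
    simp
  · rw [conjTranspose_submatrix, Matrix.submatrix_mul_equiv P Pᴴ id π id, h2]
    simp
  · have e : diagonal (z ∘ π) = (diagonal z).submatrix π π := by
      rw [Matrix.submatrix_diagonal_equiv]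
    rw [e, conjTranspose_submatrix, Matrix.submatrix_mul_equiv, Matrix.submatrix_mul_equiv, ← h3]
    simp

/-- a unitary two by two matrix with given trace and determinant -/
theorem diag2 {M : Matrix (Fin 2) (Fin 2) ℂ} (hM : Mᴴ * M = 1) {e f : ℂ}
    (ht : M.trace = e + f) (hd : M.det = e * f) :
    ∃ W : Matrix (Fin 2) (Fin 2) ℂ, Wᴴ * W = 1 ∧ W * Wᴴ = 1 ∧ M = W * diagonal ![e, f] * Wᴴ := by
  obtain ⟨P, z, h1, h2, h3, h4⟩ := diagonalise hM
  have t1 : M.trace = z 0 + z 1 := by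
    rw [h3, Matrix.trace_mul_comm, ← mul_assoc, h1, one_mul, Matrix.trace_diagonal]
    simp [Fin.sum_univ_two]
  have d1 : M.det = z 0 * z 1 := by
    rw [h3, det_mul, det_mul, det_diagonal]
    have : P.det * Pᴴ.det = 1 := by rw [← det_mul, h2, det_one]
    calc P.det * (∏ i, z i) * Pᴴ.det = (P.det * Pᴴ.det) * (∏ i, z i) := by ring
      _ = z 0 * z 1 := by rw [this, one_mul, Fin.prod_univ_two]
  have t2 : z 0 + z 1 = e + f := by rw [← t1, ht]
  have d2 : z 0 * z 1 = e * f := by rw [← d1, hd]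
  have q : (z 0 - e) * (z 0 - f) = 0 := by
    linear_combination (z 0) * t2 - d2
  rcases mul_eq_zero.1 q with q | q
  · have e0 : z 0 = e := by linear_combination q
    have e1 : z 1 = f := by linear_combination t2 - q
    refine ⟨P, h1, h2, ?_⟩
    have : z = ![e, f] := by
      funext i
      fin_cases i
      · simpa using e0
      · simpa using e1
    rw [← this]; exact h3
  · have e0 : z 0 = f := by linear_combination q
    have e1 : z 1 = e := by linear_combination t2 - q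
    obtain ⟨Q, q1, q2, q3⟩ := reorder h1 h2 h3 (Equiv.swap 0 1)
    refine ⟨Q, q1, q2, ?_⟩
    have : z ∘ (Equiv.swap (0 : Fin 2) 1) = ![e, f] := by
      funext i
      fin_cases i
      · simpa using e1
      · simpa using e0
    rw [← this]; exact q3

theorem isUn_diag {e f : ℂ} (he : star e * e = 1) (hf : star f * f = 1) :
    (diagonal ![e, f])ᴴ * diagonal ![e, f] = (1 : Matrix (Fin 2) (Fin 2) ℂ) := by
  rw [diagonal_conjTranspose, diagonal_mul_diagonal]
  ext i j
  fin_cases i <;> fin_cases j <;> simp [he, hf]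
  · simpa using he
  · simpa using hf

/-- rotation matrix -/
noncomputable def rot (c : ℝ) : Matrix (Fin 2) (Fin 2) ℂ :=
  !![((Real.sqrt c : ℝ) : ℂ), -((Real.sqrt (1 - c) : ℝ) : ℂ);
     ((Real.sqrt (1 - c) : ℝ) : ℂ), ((Real.sqrt c : ℝ) : ℂ)]

theorem rot_conj (c : ℝ) : (rot c)ᴴ =
    !![((Real.sqrt c : ℝ) : ℂ), ((Real.sqrt (1 - c) : ℝ) : ℂ);
     -((Real.sqrt (1 - c) : ℝ) : ℂ), ((Real.sqrt c : ℝ) : ℂ)] := by
  ext i j
  fin_cases i <;> fin_cases j <;> simp [rot, conjTranspose_apply]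

theorem sq1 {c : ℝ} (h : 0 ≤ c) : ((Real.sqrt c : ℝ) : ℂ) * ((Real.sqrt c : ℝ) : ℂ) = c := by
  rw [← Complex.ofReal_mul, Real.mul_self_sqrt h]

theorem rot_un {c : ℝ} (h0 : 0 ≤ c) (h1 : c ≤ 1) : (rot c)ᴴ * rot c = 1 := by
  have e1 := sq1 h0
  have e2 : ((Real.sqrt (1 - c) : ℝ) : ℂ) * ((Real.sqrt (1 - c) : ℝ) : ℂ) = 1 - c := by
    rw [sq1 (by linarith : 0 ≤ 1 - c)]; push_cast; ring
  rw [rot_conj, rot]
  ext i j
  fin_cases i <;> fin_cases j <;> simp [Matrix.mul_apply, Fin.sum_univ_two]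
  · linear_combination e1 + e2
  · ring
  · ring
  · linear_combination e1 + e2

/-- the matrix with eigenvalues `e`, `f` in the rotated basis -/
theorem rot_diag (c : ℝ) (e f : ℂ) : rot c * diagonal ![e, f] * (rot c)ᴴ =
    !![(Real.sqrt c : ℂ) * (Real.sqrt c : ℂ) * e
        + (Real.sqrt (1 - c) : ℂ) * (Real.sqrt (1 - c) : ℂ) * f,
       (Real.sqrt c : ℂ) * (Real.sqrt (1 - c) : ℂ) * (e - f);
       (Real.sqrt c : ℂ) * (Real.sqrt (1 - c) : ℂ) * (e - f),
       (Real.sqrt (1 - c) : ℂ) * (Real.sqrt (1 - c) : ℂ) * e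
        + (Real.sqrt c : ℂ) * (Real.sqrt c : ℂ) * f] := by
  have hd : (diagonal ![e, f] : Matrix (Fin 2) (Fin 2) ℂ) = !![e, 0; 0, f] := by
    ext i j
    fin_cases i <;> fin_cases j <;> simp
  rw [rot_conj, rot, hd, Matrix.mul_fin_two, Matrix.mul_fin_two]
  ext i j
  fin_cases i <;> fin_cases j <;> simp <;> ring

theorem conj_un {W D : Matrix (Fin n) (Fin n) ℂ} (h1 : Wᴴ * W = 1) (hD : Dᴴ * D = 1) :
    (W * D * Wᴴ)ᴴ * (W * D * Wᴴ) = 1 := by
  have h2 : W * Wᴴ = 1 := mul_eq_one_comm.mp h1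
  rw [conjTranspose_mul, conjTranspose_mul, conjTranspose_conjTranspose]
  calc W * (Dᴴ * Wᴴ) * (W * D * Wᴴ) = W * Dᴴ * (Wᴴ * W) * D * Wᴴ := by simp only [mul_assoc]
    _ = W * (Dᴴ * D) * Wᴴ := by rw [h1]; simp only [mul_assoc, mul_one, one_mul]
    _ = 1 := by rw [hD, mul_one, h2]

theorem star_one_of {e : ℂ} (h : e = 1 ∨ e = -1) : star e * e = 1 := by
  rcases h with h | h <;> rw [h] <;> simp

/-- the block for an even number of preceding entries -/
theorem block_even {a b p : ℂ} (ha : star a * a = 1) (hb : star b * b = 1)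
    (hp : star p * p = 1) (h : (a.im * b.im) * ((a * p).im * (b * p).im) ≤ 0) :
    ∃ (ε : ℂ) (X Y W V : Matrix (Fin 2) (Fin 2) ℂ), (ε = 1 ∨ ε = -1) ∧
      Wᴴ * W = 1 ∧ Vᴴ * V = 1 ∧ X * Y = diagonal ![a, b] ∧
      X = W * diagonal ![ε * (a * b * p), ε] * Wᴴ ∧
      Y = V * diagonal ![star p, 1] * Vᴴ := by
  obtain ⟨ε, c, hε, c0, c1, hc⟩ := even_case ha hb hp h
  set V := rot c with hV
  have v1 : Vᴴ * V = 1 := rot_un c0 c1
  have v2 : V * Vᴴ = 1 := mul_eq_one_comm.mp v1
  set Y := V * diagonal ![star p, 1] * Vᴴ with hY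
  have y1 : Yᴴ * Y = 1 := conj_un v1 (isUn_diag (by rw [star_star, mul_comm]; exact hp) (by simp))
  set Z := V * diagonal ![p, 1] * Vᴴ with hZ
  have yz : Z * Y = 1 := by
    rw [hZ, hY]
    calc V * diagonal ![p, 1] * Vᴴ * (V * diagonal ![star p, 1] * Vᴴ)
        = V * diagonal ![p, 1] * (Vᴴ * V) * diagonal ![star p, 1] * Vᴴ := by
          simp only [mul_assoc]
      _ = V * (diagonal ![p, 1] * diagonal ![star p, 1]) * Vᴴ := by
          rw [v1]; simp only [mul_assoc, one_mul]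
      _ = 1 := by
          have : (diagonal ![p, 1] * diagonal ![star p, 1] : Matrix (Fin 2) (Fin 2) ℂ) = 1 := by
            rw [diagonal_mul_diagonal]
            ext i j
            have hp' : p * star p = 1 := by rw [mul_comm]; exact hp
            fin_cases i <;> fin_cases j <;> simp
            simpa using hp'
          rw [this, mul_one, v2]
  have z1 : Zᴴ * Z = 1 := conj_un v1 (isUn_diag hp (by simp))
  set X := diagonal ![a, b] * Z with hX
  have x1 : Xᴴ * X = 1 := by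
    rw [hX, conjTranspose_mul]
    calc Zᴴ * (diagonal ![a, b])ᴴ * (diagonal ![a, b] * Z)
        = Zᴴ * ((diagonal ![a, b])ᴴ * diagonal ![a, b]) * Z := by simp only [mul_assoc]
      _ = 1 := by rw [isUn_diag ha hb, mul_one, z1]
  have xy : X * Y = diagonal ![a, b] := by
    rw [hX, mul_assoc, yz, mul_one]
  have e1 := sq1 c0
  have e2 : ((Real.sqrt (1 - c) : ℝ) : ℂ) * ((Real.sqrt (1 - c) : ℝ) : ℂ) = 1 - c := by
    rw [sq1 (by linarith : 0 ≤ 1 - c)]; push_cast; ring
  have ee : ε * ε = 1 := by rcases hε with h | h <;> rw [h] <;> norm_num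
  have xt : X.trace = ε * (a * b * p) + ε := by
    rw [hX, hZ, hV, rot_diag, Matrix.trace_fin_two]
    simp only [Matrix.mul_apply, Fin.sum_univ_two, diagonal_apply]
    simp
    linear_combination (a * p + b) * e1 + (a + b * p) * e2 + hc
  have xd : X.det = ε * (a * b * p) * ε := by
    have hz : Z.det = p := by
      rw [hZ, det_mul, det_mul, det_diagonal]
      have : V.det * Vᴴ.det = 1 := by rw [← det_mul, v2, det_one]
      calc V.det * (∏ i, ![p, 1] i) * Vᴴ.det = (V.det * Vᴴ.det) * (∏ i, ![p, 1] i) := by ring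
        _ = p := by rw [this, one_mul, Fin.prod_univ_two]; simp
    rw [hX, det_mul, hz, det_diagonal, Fin.prod_univ_two]
    simp only [Matrix.cons_val_zero, Matrix.cons_val_one]
    linear_combination (-(a * b * p)) * ee
  obtain ⟨W, w1, w2, w3⟩ := diag2 x1 xt xd
  exact ⟨ε, X, Y, W, V, hε, w1, v1, xy, w3, rfl⟩

/-- the block for an odd number of preceding entries -/
theorem block_odd {a b p : ℂ} (ha : star a * a = 1) (hb : star b * b = 1)
    (hp : star p * p = 1) (h : a.im * b.im ≤ 0) :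
    ∃ (η : ℂ) (X Y W V : Matrix (Fin 2) (Fin 2) ℂ), (η = 1 ∨ η = -1) ∧
      Wᴴ * W = 1 ∧ Vᴴ * V = 1 ∧ X * Y = diagonal ![a, b] ∧
      X = W * diagonal ![star p, η] * Wᴴ ∧
      Y = V * diagonal ![η * (a * b * p), 1] * Vᴴ := by
  obtain ⟨η, c, hη, c0, c1, hc⟩ := odd_case ha hb hp h
  set V := rot c with hV
  have v1 : Vᴴ * V = 1 := rot_un c0 c1
  have v2 : V * Vᴴ = 1 := mul_eq_one_comm.mp v1
  have ee : η * η = 1 := by rcases hη with h | h <;> rw [h] <;> norm_num
  have eη := star_one_of hη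
  set X := V * diagonal ![star p, η] * Vᴴ with hX
  set Z := V * diagonal ![p, η] * Vᴴ with hZ
  have xz : X * Z = 1 := by
    rw [hZ, hX]
    calc V * diagonal ![star p, η] * Vᴴ * (V * diagonal ![p, η] * Vᴴ)
        = V * diagonal ![star p, η] * (Vᴴ * V) * diagonal ![p, η] * Vᴴ := by
          simp only [mul_assoc]
      _ = V * (diagonal ![star p, η] * diagonal ![p, η]) * Vᴴ := by
          rw [v1]; simp only [mul_assoc, one_mul]
      _ = 1 := by
          have : (diagonal ![star p, η] * diagonal ![p, η] : Matrix (Fin 2) (Fin 2) ℂ) = 1 := by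
            rw [diagonal_mul_diagonal]
            ext i j
            fin_cases i <;> fin_cases j <;> simp [ee]
            simpa using hp
          rw [this, mul_one, v2]
  have z1 : Zᴴ * Z = 1 := conj_un v1 (isUn_diag hp eη)
  set Y := Z * diagonal ![a, b] with hY
  have y1 : Yᴴ * Y = 1 := by
    rw [hY, conjTranspose_mul]
    calc (diagonal ![a, b])ᴴ * Zᴴ * (Z * diagonal ![a, b])
        = (diagonal ![a, b])ᴴ * (Zᴴ * Z) * diagonal ![a, b] := by simp only [mul_assoc]
      _ = 1 := by rw [z1, mul_one, isUn_diag ha hb]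
  have xy : X * Y = diagonal ![a, b] := by
    rw [hY, ← mul_assoc, xz, one_mul]
  have e1 := sq1 c0
  have e2 : ((Real.sqrt (1 - c) : ℝ) : ℂ) * ((Real.sqrt (1 - c) : ℝ) : ℂ) = 1 - c := by
    rw [sq1 (by linarith : 0 ≤ 1 - c)]; push_cast; ring
  have yt : Y.trace = η * (a * b * p) + 1 := by
    rw [hY, hZ, hV, rot_diag, Matrix.trace_fin_two]
    simp only [Matrix.mul_apply, Fin.sum_univ_two, diagonal_apply]
    simp
    linear_combination (a * p + b * η) * e1 + (a * η + b * p) * e2 + hc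
  have yd : Y.det = η * (a * b * p) * 1 := by
    have hz : Z.det = p * η := by
      rw [hZ, det_mul, det_mul, det_diagonal]
      have : V.det * Vᴴ.det = 1 := by rw [← det_mul, v2, det_one]
      calc V.det * (∏ i, ![p, η] i) * Vᴴ.det = (V.det * Vᴴ.det) * (∏ i, ![p, η] i) := by ring
        _ = p * η := by rw [this, one_mul, Fin.prod_univ_two]; simp
    rw [hY, det_mul, hz, det_diagonal, Fin.prod_univ_two]
    simp only [Matrix.cons_val_zero, Matrix.cons_val_one]
    ring
  obtain ⟨W, w1, w2, w3⟩ := diag2 y1 yt yd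
  exact ⟨η, X, Y, V, W, hη, v1, w1, xy, rfl, w3⟩

end Pool.Agent.Zk86.SU4
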