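import Pool.Agent.Zk86.SU4.Final

/-! Three involutions: `SU(4)`, and scalars for the other `n`. -/

set_option autoImplicit false

namespace Pool.Agent.Zk86.SU4

open Matrix Pool.Agent.H16.SUn

/-- a scalar which is a product of three involutions is a fourth root of unity -/
theorem scalar_three {n : ℕ} (hn : 0 < n) {ζ : ℂ} (h0 : ζ ≠ 0) {I1 I2 I3 : Matrix (Fin n) (Fin n) ℂ}
    (h1 : I1 * I1 = 1) (h2 : I2 * I2 = 1) (h3 : I3 * I3 = 1)
    (h : ζ • (1 : Matrix (Fin n) (Fin n) ℂ) = I1 * I2 * I3) : ζ ^ 4 = 1 := by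
  have hB : I1 * I2 = ζ • I3 := by
    calc I1 * I2 = I1 * I2 * (I3 * I3) := by rw [h3, mul_one]
      _ = I1 * I2 * I3 * I3 := by simp only [mul_assoc]
      _ = ζ • I3 := by rw [← h, smul_mul_assoc, one_mul]
  have hB2 : (I1 * I2) * (I1 * I2) = (ζ ^ 2) • (1 : Matrix (Fin n) (Fin n) ℂ) := by
    rw [hB, smul_mul_smul_comm, h3, sq]
  have hB3 : (I2 * I1) * (I2 * I1) = (ζ ^ 2) • (1 : Matrix (Fin n) (Fin n) ℂ) := by
    calc (I2 * I1) * (I2 * I1) = (I1 * I1) * (I2 * I1) * (I2 * I1) := by rw [h1, one_mul]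
      _ = I1 * ((I1 * I2) * (I1 * I2)) * I1 := by simp only [mul_assoc]
      _ = _ := by rw [hB2, mul_smul_comm, mul_one, smul_mul_assoc, h1]
  have key : ((I1 * I2) * (I1 * I2)) * ((I2 * I1) * (I2 * I1)) = 1 := by
    calc ((I1 * I2) * (I1 * I2)) * ((I2 * I1) * (I2 * I1))
        = I1 * I2 * I1 * (I2 * I2) * I1 * I2 * I1 := by simp only [mul_assoc]
      _ = I1 * I2 * (I1 * I1) * I2 * I1 := by rw [h2]; simp only [mul_assoc, one_mul]
      _ = I1 * (I2 * I2) * I1 := by rw [h1]; simp only [mul_assoc, one_mul]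
      _ = 1 := by rw [h2, mul_one, h1]
  rw [hB2, hB3, smul_mul_smul_comm, one_mul] at key
  have := congrFun (congrFun key ⟨0, hn⟩) ⟨0, hn⟩
  simp only [Matrix.smul_apply, Matrix.one_apply_eq, smul_eq_mul, mul_one] at this
  rw [← this]; ring

theorem scalar_mem {n : ℕ} {ζ : ℂ} (h1 : star ζ * ζ = 1) (hn : ζ ^ n = 1) :
    ζ • (1 : Matrix (Fin n) (Fin n) ℂ) ∈ Matrix.specialUnitaryGroup (Fin n) ℂ := by
  rw [Matrix.mem_specialUnitaryGroup_iff, Matrix.mem_unitaryGroup_iff]
  refine ⟨?_, ?_⟩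
  · rw [star_smul, star_one, smul_mul_smul_comm, one_mul, mul_comm, h1, one_smul]
  · rw [det_smul, det_one, mul_one, Fintype.card_fin, hn]

/-- a primitive root of unity as a unit complex number -/
theorem exists_root {n : ℕ} (hn : 3 ≤ n) (h4 : n ≠ 4) :
    ∃ ζ : ℂ, star ζ * ζ = 1 ∧ ζ ^ n = 1 ∧ ζ ^ 4 ≠ 1 := by
  have h0 : n ≠ 0 := by omega
  have hp := Complex.isPrimitiveRoot_exp n h0
  refine ⟨_, ?_, hp.pow_eq_one, ?_⟩
  · have h1 : ‖Complex.exp (2 * Real.pi * Complex.I / n)‖ = 1 := hp.norm'_eq_one h0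
    have h2 := Complex.conj_mul' (Complex.exp (2 * Real.pi * Complex.I / n))
    rw [h1] at h2
    simpa using h2
  · intro h
    have hd := hp.dvd_of_pow_eq_one 4 h
    have : n ≤ 4 := Nat.le_of_dvd (by norm_num) hd
    have h3 : n = 3 := by omega
    rw [h3] at hd
    revert hd
    decide

/-- `(0 1)(2 3)` -/
def p1 : Equiv.Perm (Fin 4) := Equiv.swap 0 1 * Equiv.swap 2 3
/-- `(0 2)(1 3)` -/
def p2 : Equiv.Perm (Fin 4) := Equiv.swap 0 2 * Equiv.swap 1 3
/-- `(0 3)(1 2)` -/
def p3 : Equiv.Perm (Fin 4) := Equiv.swap 0 3 * Equiv.swap 1 2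

/-- three involutions for a diagonal matrix of size four -/
theorem three_diag {z : Fin 4 → ℂ} (hz : ∀ i, star (z i) * z i = 1) (hp : ∏ i, z i = 1) :
    ∃ I1 I2 I3, IsInv 4 I1 ∧ IsInv 4 I2 ∧ IsInv 4 I3 ∧ diagonal z = I1 * I2 * I3 := by
  have hp' : z 0 * z 1 * z 2 * z 3 = 1 := by
    rw [Fin.prod_univ_four] at hp; exact hp
  have e0 := hz 0
  have e1 := hz 1
  have e2 := hz 2
  have e3 := hz 3
  have s1 : Equiv.Perm.sign p1 = 1 := by decide
  have s2 : Equiv.Perm.sign p2 = 1 := by decide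
  have s3 : Equiv.Perm.sign p3 = 1 := by decide
  refine ⟨mono p2 ![1, z 0 * z 3, 1, star (z 0 * z 3)], mono p3 ![star (z 2), z 0, star (z 0), z 2],
    mono p1 (fun _ => 1), ?_, ?_, ?_, ?_⟩
  · apply mono_isInv
    · decide
    · intro y
      fin_cases y
      · change ![1, z 0 * z 3, 1, star (z 0 * z 3)] 2 * ![1, z 0 * z 3, 1, star (z 0 * z 3)] 0 = 1
        simp
      · change ![1, z 0 * z 3, 1, star (z 0 * z 3)] 3 * ![1, z 0 * z 3, 1, star (z 0 * z 3)] 1 = 1
        change star (z 0 * z 3) * (z 0 * z 3) = 1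
        rw [star_mul']
        linear_combination (star (z 3) * z 3) * e0 + e3
      · change ![1, z 0 * z 3, 1, star (z 0 * z 3)] 0 * ![1, z 0 * z 3, 1, star (z 0 * z 3)] 2 = 1
        simp
      · change ![1, z 0 * z 3, 1, star (z 0 * z 3)] 1 * ![1, z 0 * z 3, 1, star (z 0 * z 3)] 3 = 1
        change (z 0 * z 3) * star (z 0 * z 3) = 1
        rw [star_mul']
        linear_combination (star (z 3) * z 3) * e0 + e3
    · intro y
      fin_cases y
      · change star (1 : ℂ) = 1
        simp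
      · change star (star (z 0 * z 3)) = z 0 * z 3
        rw [star_star]
      · change star (1 : ℂ) = 1
        simp
      · change star (z 0 * z 3) = star (z 0 * z 3)
        rfl
    · rw [s2, Fin.prod_univ_four]
      change ((1 : ℤˣ) : ℂ) * (1 * (z 0 * z 3) * 1 * star (z 0 * z 3)) = 1
      rw [star_mul']
      push_cast
      linear_combination (star (z 3) * z 3) * e0 + e3
  · apply mono_isInv
    · decide
    · intro y
      fin_cases y
      · change z 2 * star (z 2) = 1
        rw [mul_comm]; exact e2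
      · change star (z 0) * z 0 = 1
        exact e0
      · change z 0 * star (z 0) = 1
        rw [mul_comm]; exact e0
      · change star (z 2) * z 2 = 1
        exact e2
    · intro y
      fin_cases y
      · change star (z 2) = star (z 2)
        rfl
      · change star (star (z 0)) = z 0
        rw [star_star]
      · change star (z 0) = star (z 0)
        rfl
      · change star (star (z 2)) = z 2
        rw [star_star]
    · rw [s3, Fin.prod_univ_four]
      change ((1 : ℤˣ) : ℂ) * (star (z 2) * z 0 * star (z 0) * z 2) = 1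
      push_cast
      linear_combination (star (z 2) * z 2) * e0 + e2
  · apply mono_isInv
    · decide
    · intro y; simp
    · intro y; simp
    · rw [s1]; simp
  · rw [mono_mul, mono_mul, diag_mono]
    have hq : p2 * p3 * p1 = 1 := by decide
    rw [hq]
    congr 1
    funext y
    fin_cases y
    · change z 0 = ![1, z 0 * z 3, 1, star (z 0 * z 3)] (p3 (p1 0)) *
        ![star (z 2), z 0, star (z 0), z 2] (p1 0) * 1
      change z 0 = 1 * z 0 * 1
      ring
    · change z 1 = star (z 0 * z 3) * star (z 2) * 1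
      rw [star_mul']
      linear_combination (star (z 0) * star (z 3) * star (z 2)) * hp'
        - (star (z 3) * star (z 2) * z 1 * z 2 * z 3) * e0
        - (star (z 2) * z 1 * z 2) * e3 - z 1 * e2
    · change z 2 = 1 * z 2 * 1
      ring
    · change z 3 = z 0 * z 3 * star (z 0) * 1
      linear_combination (-(z 3)) * e0

/-- every element of `SU(4)` is a product of three involutions -/
theorem three_of_four {A : Matrix (Fin 4) (Fin 4) ℂ}
    (hA : A ∈ Matrix.specialUnitaryGroup (Fin 4) ℂ) :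
    ∃ I1 I2 I3, IsInv 4 I1 ∧ IsInv 4 I2 ∧ IsInv 4 I3 ∧ A = I1 * I2 * I3 := by
  obtain ⟨P, z, e1, e2, e3, e4, e5⟩ := reduce hA
  have hzz : (fun i => xx z i * yy z i) = z := funext (fun i => xx_mul_yy z e4 i)
  have e3' : A = P * diagonal z * Pᴴ := by
    rw [e3, Matrix.diagonal_mul_diagonal, hzz]
  obtain ⟨I1, I2, I3, i1, i2, i3, h⟩ := three_diag e4 e5
  refine ⟨_, _, _, isInv_conj e1 e2 i1, isInv_conj e1 e2 i2, isInv_conj e1 e2 i3, ?_⟩
  rw [e3', h]
  calc P * (I1 * I2 * I3) * Pᴴ = P * I1 * 1 * I2 * 1 * I3 * Pᴴ := by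
        simp only [mul_assoc, one_mul]
    _ = P * I1 * (Pᴴ * P) * I2 * (Pᴴ * P) * I3 * Pᴴ := by rw [e1]
    _ = _ := by simp only [mul_assoc]

end Pool.Agent.Zk86.SU4
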