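import Pool.Agent.Zk86.SU4.Pattern

/-! Four involutions of the special unitary group. -/

set_option autoImplicit false

namespace Pool.Agent.Zk86.SU4

open Matrix Pool.Agent.H16.SUn

variable {n : ℕ}

theorem star_e {ε : ℂ} (h : ε = 1 ∨ ε = -1) : star ε = ε := by
  rcases h with h | h <;> rw [h] <;> simp

theorem sq_e {ε : ℂ} (h : ε = 1 ∨ ε = -1) : ε * ε = 1 := by
  rcases h with h | h <;> rw [h] <;> norm_num

theorem xxN_norm {P : ℕ → ℂ} (hP : ∀ j, star (P j) * P j = 1) (l : ℕ) :
    star (xxN P l) * xxN P l = 1 := by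
  unfold xxN
  split_ifs
  · exact hP _
  · rw [star_star, mul_comm]; exact hP _

theorem yyN_norm {P : ℕ → ℂ} (hP : ∀ j, star (P j) * P j = 1) (l : ℕ) :
    star (yyN P l) * yyN P l = 1 := by
  unfold yyN
  split_ifs
  · exact hP _
  · rw [star_star, mul_comm]; exact hP _

theorem e_norm {ε w : ℂ} (h : ε = 1 ∨ ε = -1) (hw : star w * w = 1) :
    star (ε * w) * (ε * w) = 1 := by
  rw [star_mul', star_e h]
  calc ε * star w * (ε * w) = (ε * ε) * (star w * w) := by ring
    _ = 1 := by rw [sq_e h, hw, mul_one]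

theorem four_even {z : Fin n → ℂ} (hz : ∀ i, star (z i) * z i = 1) (hp : ∏ i, z i = 1)
    {k : ℕ} (hk : k % 2 = 0) (hn : n % 2 = 0) (hkn : k + 3 ≤ n)
    (h : ((z ⟨k, by omega⟩).im * (z ⟨k + 1, by omega⟩).im) *
      ((z ⟨k, by omega⟩ * pp z k).im * (z ⟨k + 1, by omega⟩ * pp z k).im) ≤ 0) :
    Four (diagonal z) := by
  obtain ⟨ε, X, Y, W, V, hε, w1, v1, hXY, hX, hY⟩ :=
    block_even (hz ⟨k, by omega⟩) (hz ⟨k + 1, by omega⟩) (pp_norm z hz k) h
  have hP0 := pp_zero z
  have hPn := pp_n z hp
  have hPu := pp_norm z hz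
  have hk2 : z ⟨k, by omega⟩ * z ⟨k + 1, by omega⟩ * pp z k = pp z (k + 2) := by
    have e1 := pp_succ z ⟨k, by omega⟩
    have e2 := pp_succ z ⟨k + 1, by omega⟩
    simp only at e1 e2
    rw [e2, e1]; ring
  set x : Fin n → ℂ := fun l => xE (pp z) k ε l with hx
  set y : Fin n → ℂ := fun l => yE (pp z) k ε l with hy
  have xk : x ⟨k, by omega⟩ = ε * pp z (k + 2) := by
    simp only [hx]
    unfold xE; split_ifs <;> first | rfl | (exfalso; omega) | contradiction
  have xk1 : x ⟨k + 1, by omega⟩ = ε := by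
    simp only [hx]
    unfold xE; split_ifs <;> first | rfl | (exfalso; omega) | contradiction
  have yk : y ⟨k, by omega⟩ = star (pp z k) := by
    simp only [hy]
    unfold yE yyN; split_ifs <;> first | rfl | (exfalso; omega) | contradiction
  have yk1 : y ⟨k + 1, by omega⟩ = 1 := by
    simp only [hy]
    unfold yE; split_ifs <;> first | rfl | (exfalso; omega) | contradiction
  obtain ⟨Q, R, q1, q2, r1, r2, hQR⟩ := assemble (n := n) (by omega) (z := z) (x := x) (y := y)
    (i := ⟨k, by omega⟩) (j := ⟨k + 1, by omega⟩) (by simp [Fin.ext_iff]) w1 v1 hXY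
    (by rw [xk, xk1, ← hk2]; exact hX) (by rw [yk, yk1]; exact hY) (by
      intro l l1 l2
      have l1' : (l : ℕ) ≠ k := fun h => l1 (Fin.ext h)
      have l2' : (l : ℕ) ≠ k + 1 := fun h => l2 (Fin.ext h)
      have hb : xxN (pp z) l * yyN (pp z) l = z l := xx_mul_yy z hz l
      simp only [hx, hy]
      unfold xE yE
      by_cases hl : (l : ℕ) < k
      · rw [if_pos hl, if_pos hl.le, hb]
      · rw [if_neg hl, if_neg l1', if_neg l2', if_neg (by omega), if_neg l2']
        calc ε * yyN (pp z) l * (ε * xxN (pp z) l)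
            = (ε * ε) * (xxN (pp z) l * yyN (pp z) l) := by ring
          _ = z l := by rw [sq_e hε, hb, one_mul])
  let σ : Equiv.Perm (Fin n) := ⟨fun l => ⟨sE k n l, sE_lt hk hn hkn l.2⟩,
    fun l => ⟨sE k n l, sE_lt hk hn hkn l.2⟩, fun l => Fin.ext (sE_sE hk hn hkn l.2),
    fun l => Fin.ext (sE_sE hk hn hkn l.2)⟩
  let τ : Equiv.Perm (Fin n) := ⟨fun l => ⟨tE k l, tE_lt hk hn hkn l.2⟩,
    fun l => ⟨tE k l, tE_lt hk hn hkn l.2⟩, fun l => Fin.ext (tE_tE hk hn hkn l.2),
    fun l => Fin.ext (tE_tE hk hn hkn l.2)⟩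
  refine four_of_pairs hp q1 q2 r1 r2 hQR σ τ (fun l => Fin.ext (sE_sE hk hn hkn l.2))
    (fun l => Fin.ext (tE_tE hk hn hkn l.2)) ?_ ?_
    (fun l => xE_sE hε hPn hk hn hkn l.2) (fun l => yE_tE hε hP0 hk hn hkn l.2)
    ⟨⟨k + 1, by omega⟩, ?_⟩ ⟨⟨k + 1, by omega⟩, ?_⟩
    (fun l hl => yE_fix hP0 hk (congrArg Fin.val hl))
  · intro l
    simp only [hx]
    unfold xE
    split_ifs
    · exact xxN_norm hPu _
    · exact e_norm hε (hPu _)
    · rw [star_e hε, sq_e hε]
    · exact e_norm hε (yyN_norm hPu _)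
  · intro l
    simp only [hy]
    unfold yE
    split_ifs
    · exact yyN_norm hPu _
    · simp
    · exact e_norm hε (xxN_norm hPu _)
  · apply Fin.ext
    change sE k n (k + 1) = k + 1
    unfold sE; split_ifs <;> first | omega | contradiction
  · apply Fin.ext
    change tE k (k + 1) = k + 1
    unfold tE; split_ifs <;> first | omega | contradiction

theorem four_odd {z : Fin n → ℂ} (hz : ∀ i, star (z i) * z i = 1) (hp : ∏ i, z i = 1)
    {k : ℕ} (hk : k % 2 = 1) (hn : n % 2 = 0) (hkn : k + 3 ≤ n)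
    (h : (z ⟨k, by omega⟩).im * (z ⟨k + 1, by omega⟩).im ≤ 0) :
    Four (diagonal z) := by
  obtain ⟨ε, X, Y, W, V, hε, w1, v1, hXY, hX, hY⟩ :=
    block_odd (hz ⟨k, by omega⟩) (hz ⟨k + 1, by omega⟩) (pp_norm z hz k) h
  have hP0 := pp_zero z
  have hPn := pp_n z hp
  have hPu := pp_norm z hz
  have hk2 : z ⟨k, by omega⟩ * z ⟨k + 1, by omega⟩ * pp z k = pp z (k + 2) := by
    have e1 := pp_succ z ⟨k, by omega⟩
    have e2 := pp_succ z ⟨k + 1, by omega⟩
    simp only at e1 e2
    rw [e2, e1]; ring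
  set x : Fin n → ℂ := fun l => xO (pp z) k ε l with hx
  set y : Fin n → ℂ := fun l => yO (pp z) k ε l with hy
  have xk : x ⟨k, by omega⟩ = star (pp z k) := by
    simp only [hx]
    unfold xO xxN; split_ifs <;> first | rfl | (exfalso; omega) | contradiction
  have xk1 : x ⟨k + 1, by omega⟩ = ε := by
    simp only [hx]
    unfold xO; split_ifs <;> first | rfl | (exfalso; omega) | contradiction
  have yk : y ⟨k, by omega⟩ = ε * pp z (k + 2) := by
    simp only [hy]
    unfold yO yyN; split_ifs <;> first | rfl | (exfalso; omega) | contradiction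
  have yk1 : y ⟨k + 1, by omega⟩ = 1 := by
    simp only [hy]
    unfold yO; split_ifs <;> first | rfl | (exfalso; omega) | contradiction
  obtain ⟨Q, R, q1, q2, r1, r2, hQR⟩ := assemble (n := n) (by omega) (z := z) (x := x) (y := y)
    (i := ⟨k, by omega⟩) (j := ⟨k + 1, by omega⟩) (by simp [Fin.ext_iff]) w1 v1 hXY
    (by rw [xk, xk1]; exact hX) (by rw [yk, yk1, ← hk2]; exact hY) (by
      intro l l1 l2
      have l1' : (l : ℕ) ≠ k := fun h => l1 (Fin.ext h)
      have l2' : (l : ℕ) ≠ k + 1 := fun h => l2 (Fin.ext h)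
      have hb : xxN (pp z) l * yyN (pp z) l = z l := xx_mul_yy z hz l
      simp only [hx, hy]
      unfold xO yO
      by_cases hl : (l : ℕ) < k
      · rw [if_pos hl, if_pos hl.le, hb]
      · rw [if_neg hl, if_neg l1', if_neg l2', if_neg (by omega), if_neg l2']
        calc ε * yyN (pp z) l * (ε * xxN (pp z) l)
            = (ε * ε) * (xxN (pp z) l * yyN (pp z) l) := by ring
          _ = z l := by rw [sq_e hε, hb, one_mul])
  let σ : Equiv.Perm (Fin n) := ⟨fun l => ⟨sO k n l, sO_lt hk hn hkn l.2⟩,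
    fun l => ⟨sO k n l, sO_lt hk hn hkn l.2⟩, fun l => Fin.ext (sO_sO hk hn hkn l.2),
    fun l => Fin.ext (sO_sO hk hn hkn l.2)⟩
  let τ : Equiv.Perm (Fin n) := ⟨fun l => ⟨tO k l, tO_lt hk hn hkn l.2⟩,
    fun l => ⟨tO k l, tO_lt hk hn hkn l.2⟩, fun l => Fin.ext (tO_tO hk hn hkn l.2),
    fun l => Fin.ext (tO_tO hk hn hkn l.2)⟩
  refine four_of_pairs hp q1 q2 r1 r2 hQR σ τ (fun l => Fin.ext (sO_sO hk hn hkn l.2))
    (fun l => Fin.ext (tO_tO hk hn hkn l.2)) ?_ ?_
    (fun l => xO_sO hε hPn hk hn hkn l.2) (fun l => yO_tO hε hP0 hk hn hkn l.2)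
    ⟨⟨k + 1, by omega⟩, ?_⟩ ⟨⟨k + 1, by omega⟩, ?_⟩
    (fun l hl => yO_fix hP0 hk (congrArg Fin.val hl))
  · intro l
    simp only [hx]
    unfold xO
    split_ifs
    · exact xxN_norm hPu _
    · rw [star_e hε, sq_e hε]
    · exact e_norm hε (yyN_norm hPu _)
  · intro l
    simp only [hy]
    unfold yO
    split_ifs
    · exact yyN_norm hPu _
    · exact e_norm hε (hPu _)
    · simp
    · exact e_norm hε (xxN_norm hPu _)
  · apply Fin.ext
    change sO k n (k + 1) = k + 1
    unfold sO; split_ifs <;> first | omega | contradiction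
  · apply Fin.ext
    change tO k (k + 1) = k + 1
    unfold tO; split_ifs <;> first | omega | contradiction

theorem four_perm {z : Fin n → ℂ} (π : Equiv.Perm (Fin n)) (h : Four (diagonal (z ∘ π))) :
    Four (diagonal z) := by
  obtain ⟨Q, q1, q2, q3⟩ := reorder (P := (1 : Matrix (Fin n) (Fin n) ℂ)) (A := diagonal z) (z := z)
    (by simp) (by simp) (by simp) π
  rw [q3]
  exact h.conj q1 q2

/-- a sign change -/
theorem sign_change (f : ℕ → ℝ) (m : ℕ) (hm : 0 < m) (h : f m = - f 0) :
    ∃ j < m, f j * f (j + 1) ≤ 0 := by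
  by_contra hc
  push Not at hc
  have key : ∀ j, j ≤ m → 0 < f 0 * f j := by
    intro j
    induction j with
    | zero =>
      intro _
      have := hc 0 hm
      have h0 : f 0 ≠ 0 := by
        intro h0
        rw [h0, zero_mul] at this
        exact lt_irrefl _ this
      exact mul_self_pos.2 h0
    | succ j ih =>
      intro hj
      have h1 := ih (by omega)
      have h2 := hc j (by omega)
      have h3 : 0 < (f 0 * f j) * (f j * f (j + 1)) := mul_pos h1 h2
      have h4 : (f 0 * f j) * (f j * f (j + 1)) = (f j) ^ 2 * (f 0 * f (j + 1)) := by ring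
      rw [h4] at h3
      by_contra h5
      push Not at h5
      nlinarith [sq_nonneg (f j), mul_nonneg (sq_nonneg (f j)) (neg_nonneg.2 h5)]
  have := key m le_rfl
  rw [h] at this
  nlinarith [mul_self_nonneg (f 0)]

/-- an explicit permutation -/
def wf (m j i : ℕ) : ℕ :=
  if i < m - 1 then j + 1 + i else if i = m - 1 then j else if i = m then j + m else
    if i < m + 1 + j then i - m - 1 else i

theorem wf_lt {m j i : ℕ} (hm : 0 < m) (hj : j < m) (hi : i < 2 * m) : wf m j i < 2 * m := by
  unfold wf; split_ifs <;> omega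

theorem wf_inj {m j i i' : ℕ} (hm : 0 < m) (hj : j < m) (hi : i < 2 * m) (hi' : i' < 2 * m)
    (h : wf m j i = wf m j i') : i = i' := by
  unfold wf at h
  split_ifs at h <;> omega

theorem two_mod_four {m : ℕ} (hm : m % 2 = 1) (hm3 : 3 ≤ m) {z : Fin (2 * m) → ℂ}
    (hz : ∀ i, star (z i) * z i = 1) (hp : ∏ i, z i = 1) : Four (diagonal z) := by
  by_cases hc : ∃ i j : Fin (2 * m), i ≠ j ∧ (z i).im * (z j).im ≤ 0
  · obtain ⟨i, j, hij, h⟩ := hc
    -- a permutation with 1 ↦ i, 2 ↦ j
    set a : Fin (2 * m) := ⟨1, by omega⟩ with ha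
    set b : Fin (2 * m) := ⟨2, by omega⟩ with hb
    have hab : a ≠ b := by simp [ha, hb]
    set π1 : Equiv.Perm (Fin (2 * m)) := Equiv.swap a i with hπ1
    have h1 : π1 a = i := by simp [hπ1]
    have h2 : π1 b ≠ i := by
      rw [← h1]
      intro h
      exact hab (π1.injective h).symm
    set π : Equiv.Perm (Fin (2 * m)) := π1.trans (Equiv.swap (π1 b) j) with hπ
    have ha' : π a = i := by
      rw [hπ, Equiv.trans_apply, h1]
      exact Equiv.swap_apply_of_ne_of_ne (Ne.symm h2) hij
    have hb' : π b = j := by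
      rw [hπ, Equiv.trans_apply, Equiv.swap_apply_left]
    apply four_perm π
    apply four_odd (z := z ∘ π) (fun l => hz _) (by rw [← hp]; exact Equiv.prod_comp π z)
      (k := 1) rfl (by omega) (by omega)
    change (z (π a)).im * (z (π b)).im ≤ 0
    rw [ha', hb']
    exact h
  · push Not at hc
    let Z : ℕ → ℂ := fun i => if h : i < 2 * m then z ⟨i, h⟩ else 1
    let W : ℕ → ℂ := fun j => ∏ i ∈ Finset.range m, Z (j + i)
    have hZ : ∀ i, star (Z i) * Z i = 1 := by
      intro i
      simp only [Z]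
      split_ifs
      · exact hz _
      · simp
    have hWW : W 0 * W m = 1 := by
      simp only [W, zero_add]
      rw [← Finset.prod_range_add, ← two_mul, Finset.prod_range, ← hp]
      refine Finset.prod_congr rfl (fun i _ => ?_)
      simp only [Z]
      rw [dif_pos i.2]
    have hW0 : star (W 0) * W 0 = 1 := by
      simp only [W]
      rw [star_prod, ← Finset.prod_mul_distrib]
      exact Finset.prod_eq_one (fun i _ => hZ _)
    have hWm : W m = star (W 0) := by
      calc W m = (star (W 0) * W 0) * W m := by rw [hW0, one_mul]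
        _ = star (W 0) * (W 0 * W m) := by ring
        _ = star (W 0) := by rw [hWW, mul_one]
    obtain ⟨j, hj, hs⟩ := sign_change (fun j => (W j).im) m (by omega) (by
      change (W m).im = -(W 0).im
      rw [hWm]; simp)
    let π : Equiv.Perm (Fin (2 * m)) := Equiv.ofBijective
      (fun i => ⟨wf m j i, wf_lt (by omega) hj i.2⟩)
      (Finite.injective_iff_bijective.1 (fun i i' h =>
        Fin.ext (wf_inj (by omega) hj i.2 i'.2 (congrArg Fin.val h))))
    have hπ : ∀ i, (π i : ℕ) = wf m j i := fun i => rfl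
    apply four_perm π
    have hpp : pp (z ∘ π) (m - 1) = ∏ i ∈ Finset.range (m - 1), Z (j + 1 + i) := by
      unfold pp
      refine Finset.prod_congr rfl (fun i hi => ?_)
      rw [Finset.mem_range] at hi
      have h1 : i < 2 * m := by omega
      have h2 : j + 1 + i < 2 * m := by omega
      simp only [Z]
      rw [dif_pos h1, dif_pos h2]
      change z (π ⟨i, h1⟩) = _
      congr 1
      apply Fin.ext
      rw [hπ]
      change wf m j i = j + 1 + i
      unfold wf; split_ifs <;> first | omega | contradiction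
    have eW : W j = Z j * ∏ i ∈ Finset.range (m - 1), Z (j + 1 + i) := by
      simp only [W]
      have hm1 : m = (m - 1) + 1 := by omega
      conv_lhs => rw [hm1]
      rw [Finset.prod_range_succ', add_zero, mul_comm]
      congr 1
      refine Finset.prod_congr rfl (fun i _ => ?_)
      congr 1
      ring
    have eW1 : W (j + 1) = Z (j + m) * ∏ i ∈ Finset.range (m - 1), Z (j + 1 + i) := by
      simp only [W]
      have hm1 : m = (m - 1) + 1 := by omega
      conv_lhs => rw [hm1]
      rw [Finset.prod_range_succ, mul_comm]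
      congr 2
      omega
    have za : (z ∘ π) ⟨m - 1, by omega⟩ = Z j := by
      have h2 : j < 2 * m := by omega
      simp only [Z]
      rw [dif_pos h2]
      change z (π _) = _
      congr 1
      apply Fin.ext
      rw [hπ]
      change wf m j (m - 1) = j
      unfold wf; split_ifs <;> first | omega | contradiction
    have zb : (z ∘ π) ⟨(m - 1) + 1, by omega⟩ = Z (j + m) := by
      have h2 : j + m < 2 * m := by omega
      simp only [Z]
      rw [dif_pos h2]
      change z (π _) = _
      congr 1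
      apply Fin.ext
      rw [hπ]
      change wf m j (m - 1 + 1) = j + m
      unfold wf; split_ifs <;> first | omega | contradiction
    apply four_even (z := z ∘ π) (fun l => hz _) (by rw [← hp]; exact Equiv.prod_comp π z)
      (k := m - 1) (by omega) (by omega) (by omega)
    have hab : 0 < ((z ∘ π) ⟨m - 1, by omega⟩).im * ((z ∘ π) ⟨(m - 1) + 1, by omega⟩).im := by
      apply hc
      intro h
      have := π.injective h
      rw [Fin.mk.injEq] at this
      omega
    rw [hpp]
    have e1 : (z ∘ π) ⟨m - 1, by omega⟩ * ∏ i ∈ Finset.range (m - 1), Z (j + 1 + i) = W j := by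
      rw [za, eW]
    have e2 : (z ∘ π) ⟨(m - 1) + 1, by omega⟩ * ∏ i ∈ Finset.range (m - 1), Z (j + 1 + i)
        = W (j + 1) := by
      rw [zb, eW1]
    rw [e1, e2]
    exact mul_nonpos_of_nonneg_of_nonpos hab.le hs

/-- the pairing of an index set of size divisible by four is even -/
theorem sign_sX (hn : n % 4 = 0) (h0 : 0 < n) : Equiv.Perm.sign (sX n) = 1 := by
  have hne : ∀ i, sX n i ≠ i := by
    intro i h
    rw [sX_apply] at h
    have h' := congrArg Fin.val h
    unfold tX at h'
    split_ifs at h'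
    · simp at h'
    · omega
    · simp only at h'; omega
  have hsq : sX n ^ 2 = 1 := by
    rw [sq]
    exact Equiv.ext (fun y => by
      rw [Equiv.Perm.mul_apply, sX_apply, sX_apply, tX_inv]; rfl)
  have hn1 : sX n ≠ 1 := by
    intro h
    apply hne ⟨0, h0⟩
    rw [h]; rfl
  have ho : orderOf (sX n) = 2 := orderOf_eq_prime hsq hn1
  obtain ⟨j, hj⟩ := Equiv.Perm.cycleType_prime_order (σ := sX n) (by rw [ho]; exact Nat.prime_two)
  have hsum := Equiv.Perm.sum_cycleType (sX n)
  have hsupp : (sX n).support.card = n := by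
    have : (sX n).support = Finset.univ := by
      ext i
      simp [hne i]
    rw [this]; simp
  rw [hj, ho, hsupp] at hsum
  simp only [Multiset.sum_replicate, smul_eq_mul] at hsum
  rw [Equiv.Perm.sign_of_cycleType, hj, ho]
  simp only [Multiset.sum_replicate, Multiset.card_replicate, smul_eq_mul]
  rw [Even.neg_one_pow]
  have : (j + 1) % 2 = 0 := by omega
  exact (Nat.even_iff.2 (by omega))

/-- every element of `SU(n)`, `n ≥ 3`, is a product of four involutions -/
theorem four {A : Matrix (Fin n) (Fin n) ℂ} (hn : 3 ≤ n)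
    (hA : A ∈ Matrix.specialUnitaryGroup (Fin n) ℂ) : Four A := by
  obtain ⟨P, z, e1, e2, e3, e4, e5⟩ := reduce hA
  have hzz : (fun i => xx z i * yy z i) = z := funext (fun i => xx_mul_yy z e4 i)
  have e3' : A = P * diagonal z * Pᴴ := by
    rw [e3, Matrix.diagonal_mul_diagonal, hzz]
  rw [e3']
  apply Four.conj e1 e2
  by_cases h : n % 4 = 2
  · obtain ⟨m, rfl⟩ : ∃ m, n = 2 * m := ⟨n / 2, by omega⟩
    exact two_mod_four (by omega) (by omega) e4 e5
  · obtain ⟨K1, K2, k1, k2, hX⟩ := xx_two z (by omega) e4 e5 (by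
      by_cases h2 : n % 2 = 1
      · exact Or.inr h2
      · left
        exact sign_sX (by omega) (by omega))
    obtain ⟨J1, J2, j1, j2, hY⟩ := yy_two z (by omega) e4 e5
    refine ⟨K1, K2, J1, J2, k1, k2, j1, j2, ?_⟩
    calc diagonal z = diagonal (xx z) * diagonal (yy z) := by
          rw [Matrix.diagonal_mul_diagonal, hzz]
      _ = K1 * K2 * J1 * J2 := by rw [hX, hY]; simp only [mul_assoc]

end Pool.Agent.Zk86.SU4
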