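import Pool.Agent.Zk86.SU4.Assemble

/-! The two patterns of eigenvalues. -/

set_option autoImplicit false

namespace Pool.Agent.Zk86.SU4

open Matrix Pool.Agent.H16.SUn

/-- first pattern of partial products -/
noncomputable def xxN (P : ℕ → ℂ) (l : ℕ) : ℂ := if l % 2 = 0 then P (l + 1) else star (P l)

/-- second pattern of partial products -/
noncomputable def yyN (P : ℕ → ℂ) (l : ℕ) : ℂ := if l % 2 = 1 then P (l + 1) else star (P l)

section even

/-- pairing -/
def sE (k n l : ℕ) : ℕ :=
  if l < k then (if l % 2 = 0 then l + 1 else l - 1) else if l = k then k + 2 else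
    if l = k + 1 then l else if l = k + 2 then k else
      if l % 2 = 1 then (if l + 1 < n then l + 1 else l) else l - 1

/-- pairing -/
def tE (k l : ℕ) : ℕ :=
  if l ≤ k then (if l = 0 then 0 else if l % 2 = 1 then l + 1 else l - 1) else
    if l = k + 1 then l else if l % 2 = 0 then l + 1 else l - 1

/-- eigenvalues -/
noncomputable def xE (P : ℕ → ℂ) (k : ℕ) (ε : ℂ) (l : ℕ) : ℂ :=
  if l < k then xxN P l else if l = k then ε * P (k + 2) else if l = k + 1 then ε else ε * yyN P l

/-- eigenvalues -/
noncomputable def yE (P : ℕ → ℂ) (k : ℕ) (ε : ℂ) (l : ℕ) : ℂ :=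
  if l ≤ k then yyN P l else if l = k + 1 then 1 else ε * xxN P l

variable {k n : ℕ}

theorem sE_lt (hk : k % 2 = 0) (hn : n % 2 = 0) (hkn : k + 3 ≤ n) {l : ℕ} (hl : l < n) :
    sE k n l < n := by
  unfold sE; split_ifs <;> first | omega | contradiction

theorem sE_sE (hk : k % 2 = 0) (hn : n % 2 = 0) (hkn : k + 3 ≤ n) {l : ℕ} (hl : l < n) :
    sE k n (sE k n l) = l := by
  rcases (by omega : (l < k ∧ l % 2 = 0) ∨ (l < k ∧ l % 2 = 1) ∨ l = k ∨ l = k + 1 ∨ l = k + 2 ∨
    (k + 3 ≤ l ∧ l % 2 = 1 ∧ l + 1 < n) ∨ (k + 3 ≤ l ∧ l % 2 = 1 ∧ l + 1 = n) ∨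
    (k + 3 ≤ l ∧ l % 2 = 0)) with h | h | h | h | h | h | h | h
  · have e : sE k n l = l + 1 := by unfold sE; split_ifs <;> first | omega | contradiction
    rw [e]; unfold sE; split_ifs <;> first | omega | contradiction
  · have e : sE k n l = l - 1 := by unfold sE; split_ifs <;> first | omega | contradiction
    rw [e]; unfold sE; split_ifs <;> first | omega | contradiction
  · have e : sE k n l = k + 2 := by unfold sE; split_ifs <;> first | omega | contradiction
    rw [e]; unfold sE; split_ifs <;> first | omega | contradiction
  · have e : sE k n l = l := by unfold sE; split_ifs <;> first | omega | contradiction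
    rw [e, e]
  · have e : sE k n l = k := by unfold sE; split_ifs <;> first | omega | contradiction
    rw [e]; unfold sE; split_ifs <;> first | omega | contradiction
  · have e : sE k n l = l + 1 := by unfold sE; split_ifs <;> first | omega | contradiction
    rw [e]; unfold sE; split_ifs <;> first | omega | contradiction
  · have e : sE k n l = l := by unfold sE; split_ifs <;> first | omega | contradiction
    rw [e, e]
  · have e : sE k n l = l - 1 := by unfold sE; split_ifs <;> first | omega | contradiction
    rw [e]; unfold sE; split_ifs <;> first | omega | contradiction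

theorem tE_lt (hk : k % 2 = 0) (hn : n % 2 = 0) (hkn : k + 3 ≤ n) {l : ℕ} (hl : l < n) :
    tE k l < n := by
  unfold tE; split_ifs <;> first | omega | contradiction

theorem tE_tE (hk : k % 2 = 0) (hn : n % 2 = 0) (hkn : k + 3 ≤ n) {l : ℕ} (hl : l < n) :
    tE k (tE k l) = l := by
  rcases (by omega : l = 0 ∨ (0 < l ∧ l ≤ k ∧ l % 2 = 1) ∨ (0 < l ∧ l ≤ k ∧ l % 2 = 0) ∨
    l = k + 1 ∨ (k + 2 ≤ l ∧ l % 2 = 0) ∨ (k + 2 ≤ l ∧ l % 2 = 1)) with h | h | h | h | h | h
  · have e : tE k l = 0 := by unfold tE; split_ifs <;> first | omega | contradiction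
    rw [e]; unfold tE; split_ifs <;> first | omega | contradiction
  · have e : tE k l = l + 1 := by unfold tE; split_ifs <;> first | omega | contradiction
    rw [e]; unfold tE; split_ifs <;> first | omega | contradiction
  · have e : tE k l = l - 1 := by unfold tE; split_ifs <;> first | omega | contradiction
    rw [e]; unfold tE; split_ifs <;> first | omega | contradiction
  · have e : tE k l = l := by unfold tE; split_ifs <;> first | omega | contradiction
    rw [e, e]
  · have e : tE k l = l + 1 := by unfold tE; split_ifs <;> first | omega | contradiction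
    rw [e]; unfold tE; split_ifs <;> first | omega | contradiction
  · have e : tE k l = l - 1 := by unfold tE; split_ifs <;> first | omega | contradiction
    rw [e]; unfold tE; split_ifs <;> first | omega | contradiction

theorem xE_sE {P : ℕ → ℂ} {ε : ℂ} (hε : ε = 1 ∨ ε = -1) (hP : P n = 1)
    (hk : k % 2 = 0) (hn : n % 2 = 0) (hkn : k + 3 ≤ n) {l : ℕ} (hl : l < n) :
    xE P k ε (sE k n l) = star (xE P k ε l) := by
  have hs : star ε = ε := by rcases hε with h | h <;> rw [h] <;> simp
  rcases (by omega : (l < k ∧ l % 2 = 0) ∨ (l < k ∧ l % 2 = 1) ∨ l = k ∨ l = k + 1 ∨ l = k + 2 ∨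
    (k + 3 ≤ l ∧ l % 2 = 1 ∧ l + 1 < n) ∨ (k + 3 ≤ l ∧ l % 2 = 1 ∧ l + 1 = n) ∨
    (k + 3 ≤ l ∧ l % 2 = 0)) with h | h | h | h | h | h | h | h
  · have e : sE k n l = l + 1 := by unfold sE; split_ifs <;> first | omega | contradiction
    have e1 : xE P k ε l = P (l + 1) := by
      unfold xE xxN; split_ifs <;> first | rfl | (exfalso; omega) | contradiction
    have e2 : xE P k ε (l + 1) = star (P (l + 1)) := by
      unfold xE xxN; split_ifs <;> first | rfl | (exfalso; omega) | contradiction
    rw [e, e1, e2]
  · have e : sE k n l = l - 1 := by unfold sE; split_ifs <;> first | omega | contradiction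
    have e1 : xE P k ε l = star (P l) := by
      unfold xE xxN; split_ifs <;> first | rfl | (exfalso; omega) | contradiction
    have e2 : xE P k ε (l - 1) = P l := by
      have : l - 1 + 1 = l := by omega
      unfold xE xxN; rw [this]; split_ifs <;> first | rfl | (exfalso; omega) | contradiction
    rw [e, e1, e2, star_star]
  · have e : sE k n l = k + 2 := by unfold sE; split_ifs <;> first | omega | contradiction
    have e1 : xE P k ε l = ε * P (k + 2) := by
      unfold xE xxN; split_ifs <;> first | rfl | (exfalso; omega) | contradiction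
    have e2 : xE P k ε (k + 2) = ε * star (P (k + 2)) := by
      unfold xE xxN yyN; split_ifs <;> first | rfl | (exfalso; omega) | contradiction
    rw [e, e1, e2, star_mul', hs]
  · have e : sE k n l = l := by unfold sE; split_ifs <;> first | omega | contradiction
    have e1 : xE P k ε l = ε := by
      unfold xE xxN; split_ifs <;> first | rfl | (exfalso; omega) | contradiction
    rw [e, e1, hs]
  · have e : sE k n l = k := by unfold sE; split_ifs <;> first | omega | contradiction
    have e1 : xE P k ε k = ε * P (k + 2) := by
      unfold xE xxN; split_ifs <;> first | rfl | (exfalso; omega) | contradiction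
    have e2 : xE P k ε l = ε * star (P (k + 2)) := by
      rw [h]
      unfold xE xxN yyN; split_ifs <;> first | rfl | (exfalso; omega) | contradiction
    rw [e, e1, e2, star_mul', hs, star_star]
  · have e : sE k n l = l + 1 := by unfold sE; split_ifs <;> first | omega | contradiction
    have e1 : xE P k ε l = ε * P (l + 1) := by
      unfold xE xxN yyN; split_ifs <;> first | rfl | (exfalso; omega) | contradiction
    have e2 : xE P k ε (l + 1) = ε * star (P (l + 1)) := by
      unfold xE xxN yyN; split_ifs <;> first | rfl | (exfalso; omega) | contradiction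
    rw [e, e1, e2, star_mul', hs]
  · have e : sE k n l = l := by unfold sE; split_ifs <;> first | omega | contradiction
    have e1 : xE P k ε l = ε * P (l + 1) := by
      unfold xE xxN yyN; split_ifs <;> first | rfl | (exfalso; omega) | contradiction
    rw [e, e1, h.2.2, hP, mul_one, hs]
  · have e : sE k n l = l - 1 := by unfold sE; split_ifs <;> first | omega | contradiction
    have e1 : xE P k ε l = ε * star (P l) := by
      unfold xE xxN yyN; split_ifs <;> first | rfl | (exfalso; omega) | contradiction
    have e2 : xE P k ε (l - 1) = ε * P l := by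
      have : l - 1 + 1 = l := by omega
      unfold xE xxN yyN; rw [this]; split_ifs <;> first | rfl | (exfalso; omega) | contradiction
    rw [e, e1, e2, star_mul', hs, star_star]

theorem yE_tE {P : ℕ → ℂ} {ε : ℂ} (hε : ε = 1 ∨ ε = -1) (hP : P 0 = 1)
    (hk : k % 2 = 0) (hn : n % 2 = 0) (hkn : k + 3 ≤ n) {l : ℕ} (hl : l < n) :
    yE P k ε (tE k l) = star (yE P k ε l) := by
  have hs : star ε = ε := by rcases hε with h | h <;> rw [h] <;> simp
  rcases (by omega : l = 0 ∨ (0 < l ∧ l ≤ k ∧ l % 2 = 1) ∨ (0 < l ∧ l ≤ k ∧ l % 2 = 0) ∨
    l = k + 1 ∨ (k + 2 ≤ l ∧ l % 2 = 0) ∨ (k + 2 ≤ l ∧ l % 2 = 1)) with h | h | h | h | h | h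
  · have e : tE k l = l := by unfold tE; split_ifs <;> first | omega | contradiction
    have e1 : yE P k ε l = star (P l) := by
      unfold yE yyN; split_ifs <;> first | rfl | (exfalso; omega) | contradiction
    rw [e, e1, h, hP]; simp
  · have e : tE k l = l + 1 := by unfold tE; split_ifs <;> first | omega | contradiction
    have e1 : yE P k ε l = P (l + 1) := by
      unfold yE yyN; split_ifs <;> first | rfl | (exfalso; omega) | contradiction
    have e2 : yE P k ε (l + 1) = star (P (l + 1)) := by
      unfold yE yyN; split_ifs <;> first | rfl | (exfalso; omega) | contradiction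
    rw [e, e1, e2]
  · have e : tE k l = l - 1 := by unfold tE; split_ifs <;> first | omega | contradiction
    have e1 : yE P k ε l = star (P l) := by
      unfold yE yyN; split_ifs <;> first | rfl | (exfalso; omega) | contradiction
    have e2 : yE P k ε (l - 1) = P l := by
      have : l - 1 + 1 = l := by omega
      unfold yE yyN; rw [this]; split_ifs <;> first | rfl | (exfalso; omega) | contradiction
    rw [e, e1, e2, star_star]
  · have e : tE k l = l := by unfold tE; split_ifs <;> first | omega | contradiction
    have e1 : yE P k ε l = 1 := by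
      unfold yE yyN; split_ifs <;> first | rfl | (exfalso; omega) | contradiction
    rw [e, e1, star_one]
  · have e : tE k l = l + 1 := by unfold tE; split_ifs <;> first | omega | contradiction
    have e1 : yE P k ε l = ε * P (l + 1) := by
      unfold yE yyN xxN; split_ifs <;> first | rfl | (exfalso; omega) | contradiction
    have e2 : yE P k ε (l + 1) = ε * star (P (l + 1)) := by
      unfold yE yyN xxN; split_ifs <;> first | rfl | (exfalso; omega) | contradiction
    rw [e, e1, e2, star_mul', hs]
  · have e : tE k l = l - 1 := by unfold tE; split_ifs <;> first | omega | contradiction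
    have e1 : yE P k ε l = ε * star (P l) := by
      unfold yE yyN xxN; split_ifs <;> first | rfl | (exfalso; omega) | contradiction
    have e2 : yE P k ε (l - 1) = ε * P l := by
      have : l - 1 + 1 = l := by omega
      unfold yE yyN xxN; rw [this]; split_ifs <;> first | rfl | (exfalso; omega) | contradiction
    rw [e, e1, e2, star_mul', hs, star_star]

theorem yE_fix {P : ℕ → ℂ} {ε : ℂ} (hP : P 0 = 1)
    (hk : k % 2 = 0) {l : ℕ} (hf : tE k l = l) : yE P k ε l = 1 := by
  have : l = 0 ∨ l = k + 1 := by
    unfold tE at hf
    split_ifs at hf <;> omega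
  rcases this with h | h
  · have e1 : yE P k ε l = star (P l) := by
      unfold yE yyN; split_ifs <;> first | rfl | (exfalso; omega) | contradiction
    rw [e1, h, hP]; simp
  · unfold yE yyN; split_ifs <;> first | rfl | (exfalso; omega) | contradiction

end even

section odd

/-- pairing -/
def sO (k n l : ℕ) : ℕ :=
  if l ≤ k then (if l % 2 = 0 then l + 1 else l - 1) else
    if l = k + 1 then l else
      if l % 2 = 1 then (if l + 1 < n then l + 1 else l) else l - 1

/-- pairing -/
def tO (k l : ℕ) : ℕ :=
  if l < k then (if l = 0 then 0 else if l % 2 = 1 then l + 1 else l - 1) else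
    if l = k then k + 2 else if l = k + 1 then l else if l = k + 2 then k else
      if l % 2 = 0 then l + 1 else l - 1

/-- eigenvalues -/
noncomputable def xO (P : ℕ → ℂ) (k : ℕ) (η : ℂ) (l : ℕ) : ℂ :=
  if l ≤ k then xxN P l else if l = k + 1 then η else η * yyN P l

/-- eigenvalues -/
noncomputable def yO (P : ℕ → ℂ) (k : ℕ) (η : ℂ) (l : ℕ) : ℂ :=
  if l < k then yyN P l else if l = k then η * P (k + 2) else if l = k + 1 then 1 else η * xxN P l

variable {k n : ℕ}

theorem sO_lt (hk : k % 2 = 1) (hn : n % 2 = 0) (hkn : k + 3 ≤ n) {l : ℕ} (hl : l < n) :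
    sO k n l < n := by
  unfold sO; split_ifs <;> first | omega | contradiction

theorem sO_sO (hk : k % 2 = 1) (hn : n % 2 = 0) (hkn : k + 3 ≤ n) {l : ℕ} (hl : l < n) :
    sO k n (sO k n l) = l := by
  rcases (by omega : (l ≤ k ∧ l % 2 = 0) ∨ (l ≤ k ∧ l % 2 = 1) ∨ l = k + 1 ∨
    (k + 2 ≤ l ∧ l % 2 = 1 ∧ l + 1 < n) ∨ (k + 2 ≤ l ∧ l % 2 = 1 ∧ l + 1 = n) ∨
    (k + 2 ≤ l ∧ l % 2 = 0)) with h | h | h | h | h | h
  · have e : sO k n l = l + 1 := by unfold sO; split_ifs <;> first | omega | contradiction
    rw [e]; unfold sO; split_ifs <;> first | omega | contradiction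
  · have e : sO k n l = l - 1 := by unfold sO; split_ifs <;> first | omega | contradiction
    rw [e]; unfold sO; split_ifs <;> first | omega | contradiction
  · have e : sO k n l = l := by unfold sO; split_ifs <;> first | omega | contradiction
    rw [e, e]
  · have e : sO k n l = l + 1 := by unfold sO; split_ifs <;> first | omega | contradiction
    rw [e]; unfold sO; split_ifs <;> first | omega | contradiction
  · have e : sO k n l = l := by unfold sO; split_ifs <;> first | omega | contradiction
    rw [e, e]
  · have e : sO k n l = l - 1 := by unfold sO; split_ifs <;> first | omega | contradiction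
    rw [e]; unfold sO; split_ifs <;> first | omega | contradiction

theorem tO_lt (hk : k % 2 = 1) (hn : n % 2 = 0) (hkn : k + 3 ≤ n) {l : ℕ} (hl : l < n) :
    tO k l < n := by
  unfold tO; split_ifs <;> first | omega | contradiction

theorem tO_tO (hk : k % 2 = 1) (hn : n % 2 = 0) (hkn : k + 3 ≤ n) {l : ℕ} (hl : l < n) :
    tO k (tO k l) = l := by
  rcases (by omega : l = 0 ∨ (0 < l ∧ l < k ∧ l % 2 = 1) ∨ (0 < l ∧ l < k ∧ l % 2 = 0) ∨
    l = k ∨ l = k + 1 ∨ l = k + 2 ∨ (k + 3 ≤ l ∧ l % 2 = 0) ∨ (k + 3 ≤ l ∧ l % 2 = 1))
    with h | h | h | h | h | h | h | h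
  · have e : tO k l = 0 := by unfold tO; split_ifs <;> first | omega | contradiction
    rw [e]; unfold tO; split_ifs <;> first | omega | contradiction
  · have e : tO k l = l + 1 := by unfold tO; split_ifs <;> first | omega | contradiction
    rw [e]; unfold tO; split_ifs <;> first | omega | contradiction
  · have e : tO k l = l - 1 := by unfold tO; split_ifs <;> first | omega | contradiction
    rw [e]; unfold tO; split_ifs <;> first | omega | contradiction
  · have e : tO k l = k + 2 := by unfold tO; split_ifs <;> first | omega | contradiction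
    rw [e]; unfold tO; split_ifs <;> first | omega | contradiction
  · have e : tO k l = l := by unfold tO; split_ifs <;> first | omega | contradiction
    rw [e, e]
  · have e : tO k l = k := by unfold tO; split_ifs <;> first | omega | contradiction
    rw [e]; unfold tO; split_ifs <;> first | omega | contradiction
  · have e : tO k l = l + 1 := by unfold tO; split_ifs <;> first | omega | contradiction
    rw [e]; unfold tO; split_ifs <;> first | omega | contradiction
  · have e : tO k l = l - 1 := by unfold tO; split_ifs <;> first | omega | contradiction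
    rw [e]; unfold tO; split_ifs <;> first | omega | contradiction

theorem xO_sO {P : ℕ → ℂ} {η : ℂ} (hη : η = 1 ∨ η = -1) (hP : P n = 1)
    (hk : k % 2 = 1) (hn : n % 2 = 0) (hkn : k + 3 ≤ n) {l : ℕ} (hl : l < n) :
    xO P k η (sO k n l) = star (xO P k η l) := by
  have hs : star η = η := by rcases hη with h | h <;> rw [h] <;> simp
  rcases (by omega : (l ≤ k ∧ l % 2 = 0) ∨ (l ≤ k ∧ l % 2 = 1) ∨ l = k + 1 ∨
    (k + 2 ≤ l ∧ l % 2 = 1 ∧ l + 1 < n) ∨ (k + 2 ≤ l ∧ l % 2 = 1 ∧ l + 1 = n) ∨
    (k + 2 ≤ l ∧ l % 2 = 0)) with h | h | h | h | h | h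
  · have e : sO k n l = l + 1 := by unfold sO; split_ifs <;> first | omega | contradiction
    have e1 : xO P k η l = P (l + 1) := by
      unfold xO xxN; split_ifs <;> first | rfl | (exfalso; omega) | contradiction
    have e2 : xO P k η (l + 1) = star (P (l + 1)) := by
      unfold xO xxN; split_ifs <;> first | rfl | (exfalso; omega) | contradiction
    rw [e, e1, e2]
  · have e : sO k n l = l - 1 := by unfold sO; split_ifs <;> first | omega | contradiction
    have e1 : xO P k η l = star (P l) := by
      unfold xO xxN; split_ifs <;> first | rfl | (exfalso; omega) | contradiction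
    have e2 : xO P k η (l - 1) = P l := by
      have : l - 1 + 1 = l := by omega
      unfold xO xxN; rw [this]; split_ifs <;> first | rfl | (exfalso; omega) | contradiction
    rw [e, e1, e2, star_star]
  · have e : sO k n l = l := by unfold sO; split_ifs <;> first | omega | contradiction
    have e1 : xO P k η l = η := by
      unfold xO xxN; split_ifs <;> first | rfl | (exfalso; omega) | contradiction
    rw [e, e1, hs]
  · have e : sO k n l = l + 1 := by unfold sO; split_ifs <;> first | omega | contradiction
    have e1 : xO P k η l = η * P (l + 1) := by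
      unfold xO xxN yyN; split_ifs <;> first | rfl | (exfalso; omega) | contradiction
    have e2 : xO P k η (l + 1) = η * star (P (l + 1)) := by
      unfold xO xxN yyN; split_ifs <;> first | rfl | (exfalso; omega) | contradiction
    rw [e, e1, e2, star_mul', hs]
  · have e : sO k n l = l := by unfold sO; split_ifs <;> first | omega | contradiction
    have e1 : xO P k η l = η * P (l + 1) := by
      unfold xO xxN yyN; split_ifs <;> first | rfl | (exfalso; omega) | contradiction
    rw [e, e1, h.2.2, hP, mul_one, hs]
  · have e : sO k n l = l - 1 := by unfold sO; split_ifs <;> first | omega | contradiction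
    have e1 : xO P k η l = η * star (P l) := by
      unfold xO xxN yyN; split_ifs <;> first | rfl | (exfalso; omega) | contradiction
    have e2 : xO P k η (l - 1) = η * P l := by
      have : l - 1 + 1 = l := by omega
      unfold xO xxN yyN; rw [this]; split_ifs <;> first | rfl | (exfalso; omega) | contradiction
    rw [e, e1, e2, star_mul', hs, star_star]

theorem yO_tO {P : ℕ → ℂ} {η : ℂ} (hη : η = 1 ∨ η = -1) (hP : P 0 = 1)
    (hk : k % 2 = 1) (hn : n % 2 = 0) (hkn : k + 3 ≤ n) {l : ℕ} (hl : l < n) :
    yO P k η (tO k l) = star (yO P k η l) := by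
  have hs : star η = η := by rcases hη with h | h <;> rw [h] <;> simp
  rcases (by omega : l = 0 ∨ (0 < l ∧ l < k ∧ l % 2 = 1) ∨ (0 < l ∧ l < k ∧ l % 2 = 0) ∨
    l = k ∨ l = k + 1 ∨ l = k + 2 ∨ (k + 3 ≤ l ∧ l % 2 = 0) ∨ (k + 3 ≤ l ∧ l % 2 = 1))
    with h | h | h | h | h | h | h | h
  · have e : tO k l = l := by unfold tO; split_ifs <;> first | omega | contradiction
    have e1 : yO P k η l = star (P l) := by
      unfold yO yyN; split_ifs <;> first | rfl | (exfalso; omega) | contradiction
    rw [e, e1, h, hP]; simp
  · have e : tO k l = l + 1 := by unfold tO; split_ifs <;> first | omega | contradiction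
    have e1 : yO P k η l = P (l + 1) := by
      unfold yO yyN; split_ifs <;> first | rfl | (exfalso; omega) | contradiction
    have e2 : yO P k η (l + 1) = star (P (l + 1)) := by
      unfold yO yyN; split_ifs <;> first | rfl | (exfalso; omega) | contradiction
    rw [e, e1, e2]
  · have e : tO k l = l - 1 := by unfold tO; split_ifs <;> first | omega | contradiction
    have e1 : yO P k η l = star (P l) := by
      unfold yO yyN; split_ifs <;> first | rfl | (exfalso; omega) | contradiction
    have e2 : yO P k η (l - 1) = P l := by
      have : l - 1 + 1 = l := by omega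
      unfold yO yyN; rw [this]; split_ifs <;> first | rfl | (exfalso; omega) | contradiction
    rw [e, e1, e2, star_star]
  · have e : tO k l = k + 2 := by unfold tO; split_ifs <;> first | omega | contradiction
    have e1 : yO P k η l = η * P (k + 2) := by
      unfold yO xxN; split_ifs <;> first | rfl | (exfalso; omega) | contradiction
    have e2 : yO P k η (k + 2) = η * star (P (k + 2)) := by
      unfold yO xxN yyN; split_ifs <;> first | rfl | (exfalso; omega) | contradiction
    rw [e, e1, e2, star_mul', hs]
  · have e : tO k l = l := by unfold tO; split_ifs <;> first | omega | contradiction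
    have e1 : yO P k η l = 1 := by
      unfold yO yyN; split_ifs <;> first | rfl | (exfalso; omega) | contradiction
    rw [e, e1, star_one]
  · have e : tO k l = k := by unfold tO; split_ifs <;> first | omega | contradiction
    have e1 : yO P k η k = η * P (k + 2) := by
      unfold yO xxN; split_ifs <;> first | rfl | (exfalso; omega) | contradiction
    have e2 : yO P k η l = η * star (P (k + 2)) := by
      rw [h]
      unfold yO xxN yyN; split_ifs <;> first | rfl | (exfalso; omega) | contradiction
    rw [e, e1, e2, star_mul', hs, star_star]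
  · have e : tO k l = l + 1 := by unfold tO; split_ifs <;> first | omega | contradiction
    have e1 : yO P k η l = η * P (l + 1) := by
      unfold yO yyN xxN; split_ifs <;> first | rfl | (exfalso; omega) | contradiction
    have e2 : yO P k η (l + 1) = η * star (P (l + 1)) := by
      unfold yO yyN xxN; split_ifs <;> first | rfl | (exfalso; omega) | contradiction
    rw [e, e1, e2, star_mul', hs]
  · have e : tO k l = l - 1 := by unfold tO; split_ifs <;> first | omega | contradiction
    have e1 : yO P k η l = η * star (P l) := by
      unfold yO yyN xxN; split_ifs <;> first | rfl | (exfalso; omega) | contradiction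
    have e2 : yO P k η (l - 1) = η * P l := by
      have : l - 1 + 1 = l := by omega
      unfold yO yyN xxN; rw [this]; split_ifs <;> first | rfl | (exfalso; omega) | contradiction
    rw [e, e1, e2, star_mul', hs, star_star]

theorem yO_fix {P : ℕ → ℂ} {η : ℂ} (hP : P 0 = 1)
    (hk : k % 2 = 1) {l : ℕ} (hf : tO k l = l) : yO P k η l = 1 := by
  have : l = 0 ∨ l = k + 1 := by
    unfold tO at hf
    split_ifs at hf <;> omega
  rcases this with h | h
  · have e1 : yO P k η l = star (P l) := by
      unfold yO yyN; split_ifs <;> first | rfl | (exfalso; omega) | contradiction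
    rw [e1, h, hP]; simp
  · unfold yO yyN; split_ifs <;> first | rfl | (exfalso; omega) | contradiction

end odd

end Pool.Agent.Zk86.SU4
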